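import Mathlib

/-!
# Alternating products in a group that maps to an amalgamated product

`E false`, `E true` with the common subgroup `H` are mapped to `W` by `e i`, and `W` is mapped to the
amalgamated product compatibly.  Alternating products of elements of the two groups, all but the
last one not in `H`, with at least two factors of different kind at the ends, are not `1`.
-/

namespace Pool.GSP

open Function Monoid

/-- two groups with a common subgroup, mapped to a group that maps to the amalgamated product -/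
structure Am (H W : Type*) (E : Bool → Type*) [Group H] [Group W] [∀ i, Group (E i)] where
  κ : ∀ i, H →* E i
  inj : ∀ i, Injective (κ i)
  e : ∀ i, E i →* W
  comm : ∀ i h, e i (κ i h) = e (!i) (κ (!i) h)
  ret : W →* PushoutI κ
  ret_e : ∀ i x, ret (e i x) = PushoutI.of i x

namespace Am

variable {H W : Type*} {E : Bool → Type*} [Group H] [Group W] [∀ i, Group (E i)] (X : Am H W E)

theorem e_injective (i : Bool) : Injective (X.e i) := by
  intro a b h
  apply PushoutI.of_injective X.inj i
  rw [← X.ret_e, ← X.ret_e, h]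

theorem inter {i : Bool} {a : E i} {b : E (!i)} (h : X.e i a = X.e (!i) b) :
    ∃ c, a = X.κ i c ∧ b = X.κ (!i) c := by
  have h1 : PushoutI.of (φ := X.κ) i a = PushoutI.of (!i) b := by
    rw [← X.ret_e, ← X.ret_e, h]
  have hne : i ≠ !i := by cases i <;> decide
  have h2 := PushoutI.inf_of_range_eq_base_range (φ := X.κ) X.inj hne
  have h3 : PushoutI.of (φ := X.κ) i a ∈ (PushoutI.base X.κ).range := by
    rw [← h2]
    exact ⟨⟨a, rfl⟩, ⟨b, h1.symm⟩⟩
  obtain ⟨c, hc⟩ := h3
  refine ⟨c, ?_, ?_⟩
  · apply PushoutI.of_injective X.inj i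
    rw [← hc, PushoutI.of_apply_eq_base]
  · apply PushoutI.of_injective X.inj (!i)
    rw [← h1, ← hc, PushoutI.of_apply_eq_base]

/-- alternating products that start with an element of `E i` and end with an element of `E j`, all
factors but the last one are not in `H` -/
inductive AP : Bool → Bool → W → Prop
  | single (i : Bool) (u : E i) : AP i i (X.e i u)
  | cons {i j : Bool} (u : E i) {g : W} : u ∉ (X.κ i).range → AP (!i) j g → AP i j (X.e i u * g)

/-- values of reduced words that start with an element of `E i` -/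
def RW (i : Bool) (g : PushoutI X.κ) : Prop :=
  ∃ w : CoprodI.Word E, PushoutI.Reduced X.κ w ∧ w.fstIdx = some i ∧
    g = PushoutI.ofCoprodI (φ := X.κ) w.prod

theorem RW.ne_one {i : Bool} {g : PushoutI X.κ} (h : X.RW i g) : g ≠ 1 := by
  obtain ⟨w, h1, h2, rfl⟩ := h
  intro h3
  have h4 := h1.eq_empty_of_mem_range X.inj (by rw [h3]; exact one_mem _)
  rw [h4] at h2
  simp [CoprodI.Word.fstIdx, CoprodI.Word.empty] at h2

theorem RW.of_single {i : Bool} {u : E i} (hu : u ∉ (X.κ i).range) :
    X.RW i (PushoutI.of i u) := by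
  classical
  have hne : u ≠ 1 := fun h => hu (by rw [h]; exact one_mem _)
  refine ⟨CoprodI.Word.cons u .empty (by simp [CoprodI.Word.fstIdx, CoprodI.Word.empty]) hne,
    ?_, by simp [CoprodI.Word.fstIdx, CoprodI.Word.cons], ?_⟩
  · intro z hz
    simp only [CoprodI.Word.cons, CoprodI.Word.empty, List.mem_cons, List.not_mem_nil,
      or_false] at hz
    subst hz
    exact hu
  · rw [CoprodI.Word.prod_cons, map_mul, PushoutI.ofCoprodI_of]
    simp

theorem RW.of_cons {i : Bool} {u : E i} (hu : u ∉ (X.κ i).range) {g : PushoutI X.κ}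
    (h : X.RW (!i) g) : X.RW i (PushoutI.of i u * g) := by
  classical
  obtain ⟨w, h1, h2, rfl⟩ := h
  have hne : u ≠ 1 := fun h => hu (by rw [h]; exact one_mem _)
  refine ⟨CoprodI.Word.cons u w (by rw [h2]; cases i <;> simp) hne, ?_,
    by simp [CoprodI.Word.fstIdx, CoprodI.Word.cons], ?_⟩
  · intro z hz
    simp only [CoprodI.Word.cons, List.mem_cons] at hz
    rcases hz with rfl | hz
    · exact hu
    · exact h1 z hz
  · rw [CoprodI.Word.prod_cons, map_mul, PushoutI.ofCoprodI_of]

theorem AP.rw {i j : Bool} {g : W} (h : X.AP i j g) :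
    X.RW i (X.ret g) ∨ (i = j ∧ X.ret g ∈ (PushoutI.base X.κ).range) := by
  induction h with
  | single i u =>
    by_cases hu : u ∈ (X.κ i).range
    · right
      obtain ⟨c, rfl⟩ := hu
      exact ⟨rfl, c, by rw [X.ret_e, PushoutI.of_apply_eq_base]⟩
    · left
      rw [X.ret_e]
      exact RW.of_single X hu
  | @cons i j u g hu _ ih =>
    left
    rw [map_mul, X.ret_e]
    rcases ih with ih | ⟨-, c, hc⟩
    · exact RW.of_cons X hu ih
    · rw [← hc, ← PushoutI.of_apply_eq_base X.κ i, ← map_mul]
      refine RW.of_single X fun hu' => hu ?_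
      have := mul_mem hu' (inv_mem (⟨c, rfl⟩ : X.κ i c ∈ (X.κ i).range))
      simpa using this

theorem AP.ne_one {i j : Bool} {g : W} (h : X.AP i j g) (hij : i ≠ j) : g ≠ 1 := by
  rintro rfl
  rcases h.rw with h1 | ⟨h1, -⟩
  · exact h1.ne_one X (map_one _)
  · exact hij h1

end Am

end Pool.GSP
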