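import Pool.Agent.Lib.GSE.Swap

/-!
# Triangle data from corners

Every triangle `t` has a corner group `H`, mapped to the edge groups `LP (p t)`, `LQ (q t)` by `cP t`,
`cQ t`; the edge group of the third edge is the image of `H`.
-/

namespace Pool.GSP

open Pool.GSE

/-- triangle data with corner groups -/
structure Corner (Γ P Q R τ H : Type*) [Group Γ] [Group H] where
  LP : P → Subgroup (Γ × Γ)
  LQ : Q → Subgroup (Γ × Γ)
  LP_left : ∀ {p a}, (a, 1) ∈ LP p → a = 1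
  LP_right : ∀ {p b}, (1, b) ∈ LP p → b = 1
  LQ_left : ∀ {q a}, (a, 1) ∈ LQ q → a = 1
  LQ_right : ∀ {q b}, (1, b) ∈ LQ q → b = 1
  hR : R → H →* Γ × Γ
  hR_left : ∀ {r z}, (hR r z).1 = 1 → z = 1
  hR_right : ∀ {r z}, (hR r z).2 = 1 → z = 1
  p : τ → P
  q : τ → Q
  r : τ → R
  x : τ → Γ
  b : τ → Γ
  kind : R → Bool
  cP : τ → H →* Γ × Γ
  cQ : τ → H →* Γ × Γ
  cP_mem : ∀ t z, cP t z ∈ LP (p t)
  cQ_mem : ∀ t z, cQ t z ∈ LQ (q t)
  brick : ∀ t z, (cP t z).1 = (cQ t z).1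
  F1 : ∀ t z, (cQ t z).2 * x t = x t * (hR (r t) z).1
  F2 : ∀ t z, (hR (r t) z).2 * b t = b t * (cP t z).2
  inter : ∀ {t l l' m'}, (l, l') ∈ LP (p t) → (l, m') ∈ LQ (q t) →
    ∃ z, (l, l') = cP t z ∧ (l, m') = cQ t z
  pq : ∀ {t t'}, p t = p t' → q t = q t' → t = t'
  V : ∀ {t t' z l l'}, p t = p t' → r t = r t' → (l, l') ∈ LP (p t) →
    (hR (r t) z).2 * b t = b t' * l' → t = t'
  Hh : ∀ {t t' z m m'}, q t = q t' → r t = r t' → (m, m') ∈ LQ (q t) →
    m' * x t = x t' * (hR (r t) z).1 → t = t'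

namespace Corner

variable {Γ P Q R τ H : Type*} [Group Γ] [Group H] (X : Corner Γ P Q R τ H)

theorem LP_uniq {p : P} {a b c : Γ} (h : (a, b) ∈ X.LP p) (h' : (c, b) ∈ X.LP p) : a = c := by
  have h1 := mul_mem h (inv_mem h')
  have h2 : (a * c⁻¹, (1 : Γ)) ∈ X.LP p := by simpa using h1
  exact mul_inv_eq_one.1 (X.LP_left h2)

theorem LQ_uniq {q : Q} {a b c : Γ} (h : (a, b) ∈ X.LQ q) (h' : (c, b) ∈ X.LQ q) : a = c := by
  have h1 := mul_mem h (inv_mem h')
  have h2 : (a * c⁻¹, (1 : Γ)) ∈ X.LQ q := by simpa using h1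
  exact mul_inv_eq_one.1 (X.LQ_left h2)

/-- the triangle data -/
def tri : TriData Γ P Q R τ where
  LP := X.LP
  LQ := X.LQ
  LR r := (X.hR r).range
  LP_left := X.LP_left
  LP_right := X.LP_right
  LQ_left := X.LQ_left
  LQ_right := X.LQ_right
  LR_left {r a} h := by
    obtain ⟨z, hz⟩ := h
    have h1 : z = 1 := X.hR_right (by rw [hz])
    rw [h1, map_one] at hz
    exact (congrArg Prod.fst hz).symm
  LR_right {r b} h := by
    obtain ⟨z, hz⟩ := h
    have h1 : z = 1 := X.hR_left (by rw [hz])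
    rw [h1, map_one] at hz
    exact (congrArg Prod.snd hz).symm
  p := X.p
  q := X.q
  r := X.r
  a _ := 1
  x := X.x
  b := X.b
  kind := X.kind
  c0 {t t' l l' m m'} h1 h2 h3 h4 h5 := by
    obtain rfl := X.pq h1 h2
    have h6 : l = m := by
      rw [mul_one] at h5
      exact mul_inv_eq_one.1 h5
    subst h6
    obtain ⟨z, hz1, hz2⟩ := X.inter h3 h4
    refine ⟨rfl, (X.hR (X.r t) z).1, (X.hR (X.r t) z).2, ⟨z, rfl⟩, ?_, ?_⟩
    · have := X.F1 t z
      rw [← hz2] at this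
      simp only at this
      rw [this]
      group
    · have := X.F2 t z
      rw [← hz1] at this
      simp only at this
      rw [this]
      group
  c1 {t t' l l' n n'} h1 h2 h3 h4 h5 := by
    obtain ⟨z, hz⟩ := h4
    have hn : n' = (X.hR (X.r t) z).2 := by rw [hz]
    have hn1 : n = (X.hR (X.r t) z).1 := by rw [hz]
    subst hn hn1
    have h6 : (X.hR (X.r t) z).2 * X.b t = X.b t' * l' := by
      rw [← h5]
      group
    obtain rfl := X.V h1 h2 h3 h6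
    rw [X.F2] at h6
    have h7 : (X.cP t z).2 = l' := mul_left_cancel h6
    have h8 : l = (X.cP t z).1 := by
      refine X.LP_uniq h3 ?_
      rw [← h7]
      exact X.cP_mem t z
    refine ⟨rfl, (X.cQ t z).1, (X.cQ t z).2, X.cQ_mem t z, ?_, ?_⟩
    · rw [h8, X.brick]
      group
    · rw [X.F1]
      group
  c2 {t t' m m' n n'} h1 h2 h3 h4 h5 := by
    obtain ⟨z, hz⟩ := h4
    have hn : n' = (X.hR (X.r t) z).2 := by rw [hz]
    have hn1 : n = (X.hR (X.r t) z).1 := by rw [hz]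
    subst hn hn1
    have h6 : m' * X.x t = X.x t' * (X.hR (X.r t) z).1 := by
      rw [← h5]
      group
    obtain rfl := X.Hh h1 h2 h3 h6
    rw [← X.F1] at h6
    have h7 : m' = (X.cQ t z).2 := mul_right_cancel h6
    have h8 : m = (X.cQ t z).1 := by
      refine X.LQ_uniq h3 ?_
      rw [h7]
      exact X.cQ_mem t z
    refine ⟨rfl, (X.cP t z).1, (X.cP t z).2, X.cP_mem t z, ?_, ?_⟩
    · rw [h8, X.brick]
      group
    · rw [X.F2]
      group

theorem fill {t : τ} {n n' : Γ} (h : (n, n') ∈ X.tri.LR (X.tri.r t)) :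
    ∃ l l', (l, l') ∈ X.tri.LP (X.tri.p t) ∧ n' * X.tri.b t = X.tri.b t * l' := by
  obtain ⟨z, hz⟩ := h
  have hn : n' = (X.hR (X.r t) z).2 := by
    have := congrArg Prod.snd hz
    exact this.symm
  refine ⟨(X.cP t z).1, (X.cP t z).2, X.cP_mem t z, ?_⟩
  rw [hn]
  exact X.F2 t z

theorem fill' {t : τ} {n n' : Γ} (h : (n, n') ∈ X.tri.swap.LR (X.tri.swap.r t)) :
    ∃ l l', (l, l') ∈ X.tri.swap.LP (X.tri.swap.p t) ∧
      n' * X.tri.swap.b t = X.tri.swap.b t * l' := by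
  obtain ⟨z, hz⟩ := h
  have hn : n' = (X.hR (X.r t) z).1 := by
    have := congrArg Prod.fst hz
    exact this.symm
  refine ⟨(X.cQ t z).1, (X.cQ t z).2, X.cQ_mem t z, ?_⟩
  rw [hn]
  change (X.hR (X.r t) z).1 * (X.x t)⁻¹ = (X.x t)⁻¹ * (X.cQ t z).2
  rw [eq_inv_mul_iff_mul_eq, ← mul_assoc, ← X.F1]
  group

end Corner

end Pool.GSP
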