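import Pool.Agent.Lib.GSP.WallN

/-!
# The pinwheel group

Four walls, each of which ends on the next one.
-/

namespace Pool.GSP

open Function Monoid

/-- the homomorphism `y ↦ y`, `δ' ↦ [t, y]` of free groups; `true` is `y` on both sides, `false` is
`δ'` and `t` -/
def κT : F2 →* F2 := FreeGroup.lift (fun b => bif b then FreeGroup.of true else
  FreeGroup.of false * FreeGroup.of true * (FreeGroup.of false)⁻¹ * (FreeGroup.of true)⁻¹)

/-- the commutator `[s, x]` in the free group on `x` (`true`) and `s` (`false`) -/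
def cmF : F2 := FreeGroup.of false * FreeGroup.of true * (FreeGroup.of false)⁻¹ *
  (FreeGroup.of true)⁻¹

/-- Data of a pinwheel. -/
structure Wheel (A B G0 G1 : Type) [Group A] [Group B] [Group G0] [Group G1] where
  δ : A
  δ' : B
  hδ : Injective (pw δ)
  hδ' : Injective (pw δ')
  μ : MulAut B
  ν : MulAut A
  ν' : MulAut A
  hμ : μ δ' = δ'
  hν : ν δ = δ
  hν' : ν' δ = δ
  f : A →* G0
  f' : A →* G0
  g : Sg B →* G0
  p : F2 →* G1
  q : B →* G1
  ind : Injective fun z : A × Sg B => f z.1 * g z.2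
  ind' : Injective fun z : A × Sg B => f' z.1 * g z.2
  ind1 : Injective fun z : F2 × B => p z.1 * q z.2
  ff' : f' δ = f δ
  actB : ∀ b, f δ * g (Coprod.inl b) * (f δ)⁻¹ = g (Coprod.inl (μ b))
  actY : f δ * g xS = g xS * f δ
  actA : ∀ a, g xS * f a * (g xS)⁻¹ = f (ν a)
  actA' : ∀ a, g (Coprod.inl δ' * xS) * f' a * (g (Coprod.inl δ' * xS))⁻¹ = f' (ν' a)
  act1 : ∀ b, p cmF * q b * (p cmF)⁻¹ = q (μ b)
  act1' : ∀ a, q δ' * p a = p a * q δ'
  Ψ : NN (pw ν') ≃* NN (pw ν)
  Φ : F2 × Zm ≃* F2 × Zm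
  w : NN (pw ν)
  Ψx : Ψ (SemidirectProduct.inl xS) = SemidirectProduct.inl xS
  Ψy : Ψ (SemidirectProduct.inr (Multiplicative.ofAdd 1)) =
    SemidirectProduct.inr (Multiplicative.ofAdd 1)
  Ψw : Ψ (SemidirectProduct.inl (Coprod.inl δ * xS)) * w =
    w * SemidirectProduct.inl (Coprod.inl δ * xS)
  wy : SemidirectProduct.inr (Multiplicative.ofAdd 1) * w =
    w * SemidirectProduct.inr (Multiplicative.ofAdd 1)
  Φx : Φ (1, Multiplicative.ofAdd 1) = (1, Multiplicative.ofAdd 1)
  Φδ : Φ (cmF, 1) = (cmF, 1)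

namespace Wheel

variable {A B G0 G1 : Type} [Group A] [Group B] [Group G0] [Group G1] (X : Wheel A B G0 G1)

/-- values of the elements of the wall `(A * <x>) ⋊ <y>` -/
def evN {H : Type*} [Group H] (h0 : G0 →* H) (h1 : G1 →* H) (n : NN (pw X.ν)) : H :=
  sgLift (h0.comp X.f) (h1 (X.p (FreeGroup.of true))) n.left * pw (h0 (X.g xS)) n.right

/-- values of the elements of the wall `<y, t> × <x>` -/
def evM {H : Type*} [Group H] (h0 : G0 →* H) (h1 : G1 →* H) (t : H) (m : F2 × Zm) : H :=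
  FreeGroup.lift (fun b => bif b then h0 (X.g xS) else t) m.1 *
    pw (h1 (X.p (FreeGroup.of true))) m.2

/-- the relations of the pinwheel group -/
structure Sat {H : Type*} [Group H] (h0 : G0 →* H) (h1 : G1 →* H) (t : H) : Prop where
  r0 : h0 (X.f X.δ) = h1 (X.p cmF)
  rB : ∀ b, h0 (X.g (Coprod.inl b)) = h1 (X.q b)
  rxy : h1 (X.p (FreeGroup.of true)) * h0 (X.g xS) = h0 (X.g xS) * h1 (X.p (FreeGroup.of true))
  ry : t * h0 (X.g xS) = h0 (X.g (Coprod.inl X.δ' * xS)) * t
  rx : h1 (X.p (FreeGroup.of true)) * t = t * h1 (X.p (FreeGroup.of true))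
  rA : ∀ a, h0 (X.f' a) * t = t * X.evN h0 h1 (X.Ψ (SemidirectProduct.inl (Coprod.inl a)))
  rs : h0 (X.g xS) * h1 (X.p (FreeGroup.of false)) =
    h1 (X.p (FreeGroup.of false)) * X.evM h0 h1 t (X.Φ (FreeGroup.of true, 1))
  rt : t * X.evN h0 h1 X.w * h1 (X.p (FreeGroup.of false)) =
    h1 (X.p (FreeGroup.of false)) * X.evM h0 h1 t (X.Φ (FreeGroup.of false, 1))

/-- the free product of `G0`, `G1` and `<t>` -/
abbrev Fr (_ : Wheel A B G0 G1) : Type := Sg (Coprod G0 G1)

/-- `G0` in the free product -/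
def j0 : G0 →* X.Fr := Coprod.inl.comp Coprod.inl

/-- `G1` in the free product -/
def j1 : G1 →* X.Fr := Coprod.inl.comp Coprod.inr

/-- the relators -/
inductive Rel : X.Fr → X.Fr → Prop
  | r0 : Rel (X.j0 (X.f X.δ)) (X.j1 (X.p cmF))
  | rB (b : B) : Rel (X.j0 (X.g (Coprod.inl b))) (X.j1 (X.q b))
  | rxy : Rel (X.j1 (X.p (FreeGroup.of true)) * X.j0 (X.g xS))
      (X.j0 (X.g xS) * X.j1 (X.p (FreeGroup.of true)))
  | ry : Rel (xS * X.j0 (X.g xS)) (X.j0 (X.g (Coprod.inl X.δ' * xS)) * xS)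
  | rx : Rel (X.j1 (X.p (FreeGroup.of true)) * xS) (xS * X.j1 (X.p (FreeGroup.of true)))
  | rA (a : A) : Rel (X.j0 (X.f' a) * xS)
      (xS * X.evN X.j0 X.j1 (X.Ψ (SemidirectProduct.inl (Coprod.inl a))))
  | rs : Rel (X.j0 (X.g xS) * X.j1 (X.p (FreeGroup.of false)))
      (X.j1 (X.p (FreeGroup.of false)) * X.evM X.j0 X.j1 xS (X.Φ (FreeGroup.of true, 1)))
  | rt : Rel (xS * X.evN X.j0 X.j1 X.w * X.j1 (X.p (FreeGroup.of false)))
      (X.j1 (X.p (FreeGroup.of false)) * X.evM X.j0 X.j1 xS (X.Φ (FreeGroup.of false, 1)))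

/-- the relators as a set -/
def rels : Set X.Fr := {r | ∃ u v, X.Rel u v ∧ r = u * v⁻¹}

/-- the pinwheel group -/
def Pin : Type := X.Fr ⧸ Subgroup.normalClosure X.rels

instance : Group X.Pin := QuotientGroup.Quotient.group (Subgroup.normalClosure X.rels)

/-- the quotient map -/
def qt : X.Fr →* X.Pin := QuotientGroup.mk' (Subgroup.normalClosure X.rels)

/-- the canonical homomorphism from `G0` -/
def of0 : G0 →* X.Pin := X.qt.comp X.j0

/-- the canonical homomorphism from `G1` -/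
def of1 : G1 →* X.Pin := X.qt.comp X.j1

/-- the letter `t` -/
def t : X.Pin := X.qt xS

theorem map_evN {H H' : Type*} [Group H] [Group H'] (F : H →* H') (h0 : G0 →* H) (h1 : G1 →* H)
    (n : NN (pw X.ν)) : F (X.evN h0 h1 n) = X.evN (F.comp h0) (F.comp h1) n := by
  have h : F.comp (sgLift (h0.comp X.f) (h1 (X.p (FreeGroup.of true)))) =
      sgLift ((F.comp h0).comp X.f) ((F.comp h1) (X.p (FreeGroup.of true))) := by
    refine sg_ext (fun a => ?_) ?_
    · simp
    · simp
  rw [evN, evN, map_mul, map_pw]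
  congr 1
  exact DFunLike.congr_fun h n.left

theorem map_evM {H H' : Type*} [Group H] [Group H'] (F : H →* H') (h0 : G0 →* H) (h1 : G1 →* H)
    (t : H) (m : F2 × Zm) : F (X.evM h0 h1 t m) = X.evM (F.comp h0) (F.comp h1) (F t) m := by
  have h : F.comp (FreeGroup.lift (fun b => bif b then h0 (X.g xS) else t)) =
      FreeGroup.lift (fun b => bif b then (F.comp h0) (X.g xS) else F t) := by
    refine FreeGroup.ext_hom _ _ ?_
    rintro (_ | _) <;> simp
  rw [evM, evM, map_mul, map_pw]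
  congr 1
  exact DFunLike.congr_fun h m.1

theorem qt_eq {u v : X.Fr} (h : X.Rel u v) : X.qt u = X.qt v := by
  have h1 : X.qt (u * v⁻¹) = 1 :=
    (QuotientGroup.eq_one_iff (N := Subgroup.normalClosure X.rels) (u * v⁻¹)).2
      (Subgroup.subset_normalClosure ⟨u, v, h, rfl⟩)
  rw [map_mul, map_inv, mul_inv_eq_one] at h1
  exact h1

/-- the relations hold in the pinwheel group -/
theorem sat : X.Sat X.of0 X.of1 X.t where
  r0 := X.qt_eq .r0
  rB b := X.qt_eq (.rB b)
  rxy := by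
    have h := X.qt_eq .rxy
    simp only [map_mul] at h
    exact h
  ry := by
    have h := X.qt_eq .ry
    rw [map_mul, map_mul] at h
    exact h
  rx := by
    have h := X.qt_eq .rx
    simp only [map_mul] at h
    exact h
  rA a := by
    have h := X.qt_eq (.rA a)
    rw [map_mul, map_mul, X.map_evN] at h
    exact h
  rs := by
    have h := X.qt_eq .rs
    rw [map_mul, map_mul, X.map_evM] at h
    exact h
  rt := by
    have h := X.qt_eq .rt
    rw [map_mul, map_mul, map_mul, X.map_evM, X.map_evN] at h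
    exact h

variable {X}

/-- homomorphisms out of the pinwheel group -/
def lift {H : Type*} [Group H] {h0 : G0 →* H} {h1 : G1 →* H} {t : H} (h : X.Sat h0 h1 t) :
    X.Pin →* H :=
  QuotientGroup.lift (Subgroup.normalClosure X.rels) (sgLift (Coprod.lift h0 h1) t) (by
    intro x hx
    have e0 : (sgLift (Coprod.lift h0 h1) t).comp X.j0 = h0 := by
      ext z
      simp [j0]
    have e1 : (sgLift (Coprod.lift h0 h1) t).comp X.j1 = h1 := by
      ext z
      simp [j1]
    have e0' : ∀ z, sgLift (Coprod.lift h0 h1) t (X.j0 z) = h0 z := DFunLike.congr_fun e0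
    have e1' : ∀ z, sgLift (Coprod.lift h0 h1) t (X.j1 z) = h1 z := DFunLike.congr_fun e1
    have h1 : X.rels ⊆ (sgLift (Coprod.lift h0 h1) t).ker := by
      rintro r ⟨u, v, huv, rfl⟩
      rw [SetLike.mem_coe, MonoidHom.mem_ker, map_mul, map_inv, mul_inv_eq_one]
      cases huv
      · rw [e0', e1']; exact h.r0
      · rw [e0', e1']; exact h.rB _
      · rw [map_mul, map_mul, e0', e1']; exact h.rxy
      · rw [map_mul, map_mul, e0', e0', sgLift_x]; exact h.ry
      · rw [map_mul, map_mul, e1', sgLift_x]; exact h.rx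
      · rw [map_mul, map_mul, e0', sgLift_x, X.map_evN, e0, e1]; exact h.rA _
      · rw [map_mul, map_mul, e0', e1', X.map_evM, e0, e1, sgLift_x]; exact h.rs
      · rw [map_mul, map_mul, map_mul, e1', X.map_evM, X.map_evN, e0, e1, sgLift_x]; exact h.rt
    exact Subgroup.normalClosure_le_normal h1 hx)

theorem lift_of0 {H : Type*} [Group H] {h0 : G0 →* H} {h1 : G1 →* H} {t : H}
    (h : X.Sat h0 h1 t) (z : G0) : lift h (X.of0 z) = h0 z := by
  change sgLift (Coprod.lift h0 h1) t (X.j0 z) = h0 z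
  simp [j0]

theorem lift_of1 {H : Type*} [Group H] {h0 : G0 →* H} {h1 : G1 →* H} {t : H}
    (h : X.Sat h0 h1 t) (z : G1) : lift h (X.of1 z) = h1 z := by
  change sgLift (Coprod.lift h0 h1) t (X.j1 z) = h1 z
  simp [j1]

theorem lift_t {H : Type*} [Group H] {h0 : G0 →* H} {h1 : G1 →* H} {t : H}
    (h : X.Sat h0 h1 t) : lift h X.t = t := by
  change sgLift (Coprod.lift h0 h1) t xS = t
  simp

end Wheel

end Pool.GSP
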