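import Pool.Agent.Lib.GSC.Bridge
import Pool.Agent.Lib.GSP.WheelDef

/-!
# Reduced products in a group that maps to an HNN extension
-/

namespace Pool.GSP

open Function Pool.GSE

/-- a group `U` with a homomorphism from `W` and an element `s` that conjugates `c h` to `d h`, which
maps to the HNN extension compatibly -/
structure Hn (H W U : Type*) [Group H] [Group W] [Group U] where
  c : H →* W
  d : H →* W
  hc : Injective c
  hd : Injective d
  inc : W →* U
  s : U
  rel : ∀ h, s⁻¹ * inc (c h) * s = inc (d h)
  ret : U →* M (fun _ : Unit => c.range) (fun _ => d.range)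
    (fun _ => (MonoidHom.ofInjective hc).symm.trans (MonoidHom.ofInjective hd))
  ret_inc : ∀ w, ret (inc w) = M.of _ _ _ w
  ret_s : ret s = M.st _ _ _ ()

namespace Hn

variable {H W U : Type*} [Group H] [Group W] [Group U] (X : Hn H W U)

/-- the isomorphism of the edge groups -/
noncomputable def φ : ∀ _ : Unit, X.c.range ≃* X.d.range := fun _ =>
  (MonoidHom.ofInjective X.hc).symm.trans (MonoidHom.ofInjective X.hd)

theorem φ_apply (h : H) : X.φ () ⟨X.c h, h, rfl⟩ = ⟨X.d h, h, rfl⟩ := by
  have h1 : (MonoidHom.ofInjective X.hc).symm ⟨X.c h, h, rfl⟩ = h := by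
    rw [MulEquiv.symm_apply_eq]
    rfl
  change (MonoidHom.ofInjective X.hd) ((MonoidHom.ofInjective X.hc).symm ⟨X.c h, h, rfl⟩) = _
  rw [h1]
  rfl

/-- the HNN extension -/
abbrev MM : Type _ := M (fun _ : Unit => X.c.range) (fun _ => X.d.range) X.φ

/-- the HNN extension as a side -/
noncomputable def side : Side W Unit X.MM where
  C := fun _ => X.c.range
  D := fun _ => X.d.range
  φ := X.φ
  inc := M.of _ _ _
  s := fun _ => M.st _ _ _ ()
  rel := fun _ c => M.rel _ _ X.φ () c
  bij := by
    have h : M.lift (fun _ : Unit => X.c.range) (fun _ => X.d.range) X.φ (M.of _ _ _)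
        (fun _ => M.st _ _ _ ()) (fun _ c => M.rel _ _ X.φ () c) = MonoidHom.id _ := by
      refine M.hom_ext (fun w => ?_) (fun i => ?_)
      · rw [M.lift_of]; rfl
      · rw [M.lift_st]; rfl
    rw [h]
    exact bijective_id

theorem inc_injective : Injective X.inc := by
  intro a b h
  apply M.of_injective (fun _ : Unit => X.c.range) (fun _ => X.d.range) X.φ
  have h1 := congrArg X.ret h
  rwa [X.ret_inc, X.ret_inc] at h1

/-- the letters -/
def letter (ε : Bool) : U := if ε then X.s else X.s⁻¹

/-- the maps of the edge group -/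
def cd (ε : Bool) : H →* W := if ε then X.d else X.c

/-- reduced products that start with a letter -/
inductive RP : Bool → U → Prop
  | single (ε : Bool) (w : W) : RP ε (X.letter ε * X.inc w)
  | cons {ε ε2 : Bool} {w : W} {β : U} : ¬ (ε2 = !ε ∧ w ∈ (X.cd ε).range) → RP ε2 β →
      RP ε (X.letter ε * X.inc w * β)

theorem ret_letter (ε : Bool) : X.ret (X.letter ε) = X.side.letter ((), ε) := by
  cases ε
  · simp only [letter, Side.letter, Bool.false_eq_true, if_false, map_inv, X.ret_s]
    rfl
  · simp only [letter, Side.letter, if_true, X.ret_s]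
    rfl

theorem RP.side {ε : Bool} {g : U} (h : X.RP ε g) : X.side.RP ((), ε) (X.ret g) := by
  induction h with
  | single ε w =>
    rw [map_mul, ret_letter, X.ret_inc]
    exact Side.RP.single ((), ε) w
  | @cons ε ε2 w β h1 _ ih =>
    rw [map_mul, map_mul, ret_letter, X.ret_inc]
    refine Side.RP.cons ?_ ih
    rintro ⟨h2, k, h3⟩
    simp only [Prod.mk.injEq, true_and] at h2
    refine h1 ⟨h2, ?_⟩
    cases ε
    · rw [hsys_L_false_iff] at h3
      obtain ⟨c, rfl, -⟩ := h3
      exact c.2
    · rw [hsys_L_true_iff] at h3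
      obtain ⟨c, -, rfl⟩ := h3
      exact ((X.side.φ ()) c).2

theorem RP.ne_one {ε : Bool} {g : U} (h : X.RP ε g) : g ≠ 1 := by
  rintro rfl
  exact Side.RP.ne_one X.side (h.side X) (map_one _)

/-- the corner of the wall group -/
theorem key {ε ε2 : Bool} {h : H} {w : W}
    (e : X.inc (X.c h) * (if ε then X.s else 1) * (X.inc w)⁻¹ = if ε2 then X.s else 1) :
    ε = ε2 ∧ w = if ε then X.d h else X.c h := by
  have h1 := congrArg X.ret e
  have h2 : X.side.inc (⟨X.c h, h, rfl⟩ : X.c.range) * (if ε then X.side.s () else 1) *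
      (X.side.inc w)⁻¹ = if ε2 then X.side.s () else 1 := by
    rw [map_mul, map_mul, map_inv, X.ret_inc, X.ret_inc] at h1
    have h3 : ∀ b : Bool, X.ret (if b then X.s else 1) = if b then X.side.s () else 1 := by
      intro b
      cases b
      · simp only [Bool.false_eq_true, if_false, map_one]
        rfl
      · simp only [if_true, X.ret_s]
        rfl
    rw [h3, h3] at h1
    exact h1
  obtain ⟨rfl, h4⟩ := X.side.key1 h2
  refine ⟨rfl, ?_⟩
  rw [h4]
  cases ε
  · rfl
  · simp only [if_true]
    exact congrArg Subtype.val (X.φ_apply h)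

end Hn

@[simp] theorem κT_true : κT (FreeGroup.of true) = FreeGroup.of true := by simp [κT]

theorem κT_false : κT (FreeGroup.of false) = FreeGroup.of false * FreeGroup.of true *
    (FreeGroup.of false)⁻¹ * (FreeGroup.of true)⁻¹ := by simp [κT]

/-- `δ' * y` -/
def dy : F2 := FreeGroup.of false * FreeGroup.of true

theorem κT_dy : κT dy = FreeGroup.of false * FreeGroup.of true * (FreeGroup.of false)⁻¹ := by
  rw [dy, map_mul, κT_true, κT_false]
  group

theorem pw_inj_of {G : Type*} [Group G] {g : G} (f : G →* Zm) (h : f g = Multiplicative.ofAdd 1) :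
    Injective (pw g) := by
  intro a b hab
  have h1 := congrArg f hab
  rw [map_pw, map_pw, h, pw_apply, pw_apply] at h1
  have h2 : ∀ n : Zm, (Multiplicative.ofAdd (1 : ℤ)) ^ n.toAdd = n := by
    intro n
    rw [← ofAdd_zsmul]
    simp
  rwa [h2, h2] at h1

theorem pw_dy_injective : Injective (pw dy) := by
  refine pw_inj_of (FreeGroup.lift (fun b => bif b then Multiplicative.ofAdd (1 : ℤ) else 1)) ?_
  rw [dy, map_mul, FreeGroup.lift_apply_of, FreeGroup.lift_apply_of]
  simp

/-- the edge group `<δ' y> × Z` -/
def cT : Zm × Zm →* F2 × Zm := (pw dy).prodMap (MonoidHom.id Zm)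

/-- the edge group `<y> × Z` -/
def dT : Zm × Zm →* F2 × Zm := (pw (FreeGroup.of true)).prodMap (MonoidHom.id Zm)

theorem cT_apply (p : Zm × Zm) : cT p = (pw dy p.1, p.2) := rfl
theorem dT_apply (p : Zm × Zm) : dT p = (pw (FreeGroup.of true) p.1, p.2) := rfl

theorem cT_injective : Injective cT := by
  intro a b h
  rw [cT_apply, cT_apply, Prod.mk.injEq] at h
  exact Prod.ext (pw_dy_injective h.1) h.2

theorem dT_injective : Injective dT := by
  intro a b h
  rw [dT_apply, dT_apply, Prod.mk.injEq] at h
  exact Prod.ext (pw_of_injective true h.1) h.2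

/-- the embedding of the base group -/
def iT : F2 × Zm →* F2 × Zm := κT.prodMap (MonoidHom.id Zm)

theorem iT_apply (p : F2 × Zm) : iT p = (κT p.1, p.2) := rfl

/-- the stable letter -/
def tT : F2 × Zm := (FreeGroup.of false, 1)

theorem relT (h : Zm × Zm) : tT⁻¹ * iT (cT h) * tT = iT (dT h) := by
  rw [iT_apply, iT_apply, cT_apply, dT_apply, tT]
  refine Prod.ext ?_ ?_
  · simp only [Prod.fst_mul, Prod.fst_inv, map_pw, κT_dy, κT_true]
    have := map_pw (MulAut.conj (FreeGroup.of false)⁻¹ : F2 ≃* F2).toMonoidHom
      (FreeGroup.of false * FreeGroup.of true * (FreeGroup.of false)⁻¹) h.1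
    simp only [MulEquiv.toMonoidHom_eq_coe, MonoidHom.coe_coe, MulAut.conj_apply, inv_inv] at this
    rw [this]
    congr 1
    group
  · simp

/-- `F2 × Z` as an HNN extension of `F2 × Z` -/
noncomputable def hnT : Hn (Zm × Zm) (F2 × Zm) (F2 × Zm) :=
  let C := fun _ : Unit => cT.range
  let D := fun _ : Unit => dT.range
  let φ : ∀ i : Unit, C i ≃* D i := fun _ =>
    (MonoidHom.ofInjective cT_injective).symm.trans (MonoidHom.ofInjective dT_injective)
  have hφ : ∀ h, φ () ⟨cT h, h, rfl⟩ = ⟨dT h, h, rfl⟩ := by
    intro h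
    have h1 : (MonoidHom.ofInjective cT_injective).symm ⟨cT h, h, rfl⟩ = h := by
      rw [MulEquiv.symm_apply_eq]
      rfl
    change (MonoidHom.ofInjective dT_injective)
      ((MonoidHom.ofInjective cT_injective).symm ⟨cT h, h, rfl⟩) = _
    rw [h1]
    rfl
  have hrel : ∀ h, (M.st C D φ ())⁻¹ * M.of C D φ (cT h) * M.st C D φ () = M.of C D φ (dT h) := by
    intro h
    have := M.rel C D φ () ⟨cT h, h, rfl⟩
    rw [hφ] at this
    exact this
  let f : F2 →* M C D φ := FreeGroup.lift
    (fun b => bif b then M.of C D φ (FreeGroup.of true, 1) else M.st C D φ ())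
  let g : Zm →* M C D φ := (M.of C D φ).comp (MonoidHom.inr F2 Zm)
  have hfg : ∀ a b, Commute (f a) (g b) := by
    intro a b
    induction a using FreeGroup.induction_on with
    | C1 => rw [map_one]; exact Commute.one_left _
    | of i =>
      cases i
      · change f (FreeGroup.of false) * g b = g b * f (FreeGroup.of false)
        have h1 : f (FreeGroup.of false) = M.st C D φ () := by simp [f]
        have h2 := hrel (1, b)
        rw [cT_apply, dT_apply] at h2
        simp only [map_one] at h2
        rw [h1]
        change M.st C D φ () * M.of C D φ (1, b) = M.of C D φ (1, b) * M.st C D φ ()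
        nth_rewrite 1 [← h2]
        group
      · change f (FreeGroup.of true) * g b = g b * f (FreeGroup.of true)
        have h1 : f (FreeGroup.of true) = M.of C D φ (FreeGroup.of true, 1) := by simp [f]
        rw [h1]
        change M.of C D φ _ * M.of C D φ (1, b) = M.of C D φ (1, b) * M.of C D φ _
        rw [← map_mul, ← map_mul]
        congr 1
        refine Prod.ext ?_ ?_ <;> simp
    | inv_of i ih => rw [map_inv]; exact ih.inv_left
    | mul x y hx hy => rw [map_mul]; exact hx.mul_left hy
  { c := cT
    d := dT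
    hc := cT_injective
    hd := dT_injective
    inc := iT
    s := tT
    rel := relT
    ret := f.noncommCoprod g hfg
    ret_inc := by
      intro w
      have h1 : f.comp κT = (M.of C D φ).comp (MonoidHom.inl F2 Zm) := by
        refine FreeGroup.ext_hom _ _ ?_
        rintro (_ | _)
        · change f (κT (FreeGroup.of false)) = M.of C D φ (FreeGroup.of false, 1)
          rw [κT_false, map_mul, map_mul, map_mul, map_inv, map_inv]
          have e1 : f (FreeGroup.of false) = M.st C D φ () := by simp [f]
          have e2 : f (FreeGroup.of true) = M.of C D φ (FreeGroup.of true, 1) := by simp [f]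
          rw [e1, e2]
          have h2 := hrel (Multiplicative.ofAdd 1, 1)
          rw [cT_apply, dT_apply] at h2
          simp only [pw_ofAdd_one] at h2
          have h3 : ((dy, 1) : F2 × Zm) = (FreeGroup.of false, 1) * (FreeGroup.of true, 1) := by
            simp [dy]
          rw [h3, map_mul] at h2
          have h4 : M.st C D φ () * M.of C D φ (FreeGroup.of true, 1) * (M.st C D φ ())⁻¹ =
              M.of C D φ (FreeGroup.of false, 1) * M.of C D φ (FreeGroup.of true, 1) := by
            nth_rewrite 1 [← h2]
            group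
          rw [h4, mul_inv_cancel_right]
        · change f (κT (FreeGroup.of true)) = M.of C D φ (FreeGroup.of true, 1)
          rw [κT_true]
          simp [f]
      change f (κT w.1) * g w.2 = _
      have h2 := DFunLike.congr_fun h1 w.1
      change f (κT w.1) = M.of C D φ (w.1, 1) at h2
      rw [h2]
      change M.of C D φ (w.1, 1) * M.of C D φ (1, w.2) = M.of C D φ w
      rw [← map_mul]
      congr 1
      refine Prod.ext ?_ ?_ <;> simp
    ret_s := by
      change f (FreeGroup.of false) * g 1 = M.st C D φ ()
      rw [map_one, mul_one]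
      simp [f] }

end Pool.GSP
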