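import Pool.Agent.Lib.GSP.Amal

/-!
# The wall groups `(A * <x>) ⋊ Z`

`Z` acts on `A` by `α` and fixes `x` and `δ ∈ A`.  The group `(A * <x>) ⋊ Z` is the amalgamated
product of `A ⋊ Z` and `<x, δ> × Z` (`<x, δ>` free) over `<δ> × Z`, if `δ` has infinite order.
-/

namespace Pool.GSP

open Function Monoid

/-- infinite cyclic group -/
abbrev Zm : Type := Multiplicative ℤ

/-- powers of an element -/
def pw {G : Type*} [Group G] (g : G) : Zm →* G := zpowersHom G g

theorem pw_apply {G : Type*} [Group G] (g : G) (n : Zm) : pw g n = g ^ n.toAdd := rfl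

@[simp] theorem pw_ofAdd_one {G : Type*} [Group G] (g : G) : pw g (Multiplicative.ofAdd 1) = g := by
  simp [pw_apply]

theorem map_pw {G H : Type*} [Group G] [Group H] (f : G →* H) (g : G) (n : Zm) :
    f (pw g n) = pw (f g) n := by
  rw [pw_apply, pw_apply, map_zpow]

theorem zm_ext {H : Type*} [Group H] {f g : Zm →* H}
    (h : f (Multiplicative.ofAdd 1) = g (Multiplicative.ofAdd 1)) : f = g := by
  ext
  exact h

theorem pw_comm {G : Type*} [Group G] {g h : G} (hc : g * h = h * g) (n : Zm) :
    pw g n * h = h * pw g n := by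
  have : Commute g h := hc
  exact (this.zpow_left n.toAdd).eq

/-- free group of rank 2 -/
abbrev F2 : Type := FreeGroup Bool

theorem pw_of_injective (i : Bool) : Injective (pw (FreeGroup.of i : F2)) := by
  intro a b h
  have h1 := congrArg (FreeGroup.lift (fun _ : Bool => Multiplicative.ofAdd (1 : ℤ))) h
  rw [map_pw, map_pw, FreeGroup.lift_apply_of, pw_apply, pw_apply] at h1
  have h2 : ∀ n : Zm, (Multiplicative.ofAdd (1 : ℤ)) ^ n.toAdd = n := by
    intro n
    rw [← ofAdd_zsmul]
    simp
  rwa [h2, h2] at h1

/-- the free product with an infinite cyclic group -/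
abbrev Sg (A : Type) [Group A] : Type := Coprod A Zm

variable {A : Type} [Group A]

/-- the generator of the infinite cyclic factor -/
def xS : Sg A := Coprod.inr (Multiplicative.ofAdd 1)

theorem inr_eq_pw (n : Zm) : (Coprod.inr n : Sg A) = pw xS n := by
  have : (Coprod.inr : Zm →* Sg A) = pw xS := zm_ext (by simp [xS])
  rw [this]

theorem sg_ext {H : Type*} [Group H] {f g : Sg A →* H} (h1 : ∀ a, f (Coprod.inl a) = g (Coprod.inl a))
    (h2 : f xS = g xS) : f = g := by
  refine Coprod.hom_ext (MonoidHom.ext h1) (zm_ext ?_)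
  exact h2

/-- homomorphisms out of `A * <x>` -/
def sgLift {H : Type*} [Group H] (f : A →* H) (x : H) : Sg A →* H := Coprod.lift f (pw x)

@[simp] theorem sgLift_inl {H : Type*} [Group H] (f : A →* H) (x : H) (a : A) :
    sgLift f x (Coprod.inl a) = f a := by simp [sgLift]

@[simp] theorem sgLift_x {H : Type*} [Group H] (f : A →* H) (x : H) :
    sgLift f x xS = x := by simp [sgLift, xS]

/-- the action extended by the identity on `x` -/
def extA (α : Zm →* MulAut A) : Zm →* MulAut (Sg A) where
  toFun n := MulEquiv.coprodCongr (α n) (MulEquiv.refl Zm)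
  map_one' := by
    apply MulEquiv.toMonoidHom_injective
    refine sg_ext (fun a => ?_) ?_
    · simp
    · simp [xS]
  map_mul' m n := by
    apply MulEquiv.toMonoidHom_injective
    refine sg_ext (fun a => ?_) ?_
    · simp
    · simp [xS]

@[simp] theorem extA_inl (α : Zm →* MulAut A) (n : Zm) (a : A) :
    extA α n (Coprod.inl a) = Coprod.inl (α n a) := by simp [extA]

@[simp] theorem extA_x (α : Zm →* MulAut A) (n : Zm) : extA α n xS = xS := by simp [extA, xS]

/-- the wall group -/
abbrev NN (α : Zm →* MulAut A) : Type := Sg A ⋊[extA α] Zm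

/-- its subgroup -/
abbrev EN (α : Zm →* MulAut A) : Type := A ⋊[α] Zm

/-- the free group `<x, δ>` in `A * <x>` -/
def κS (δ : A) : F2 →* Sg A := FreeGroup.lift (fun b => bif b then xS else Coprod.inl δ)

@[simp] theorem κS_true (δ : A) : κS δ (FreeGroup.of true) = xS := by simp [κS]

@[simp] theorem κS_false (δ : A) : κS δ (FreeGroup.of false) = Coprod.inl δ := by simp [κS]

variable (α : Zm →* MulAut A) (δ : A) (hα : ∀ n, α n δ = δ)

include hα in
theorem extA_κS (n : Zm) (w : F2) : extA α n (κS δ w) = κS δ w := by
  have h : ((extA α n).toMonoidHom.comp (κS δ)) = κS δ := by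
    refine FreeGroup.ext_hom _ _ ?_
    rintro (_ | _)
    · simp [hα]
    · simp
  exact DFunLike.congr_fun h w

/-- the embedding of `A ⋊ Z` -/
def jA : EN α →* NN α := SemidirectProduct.map Coprod.inl (MonoidHom.id Zm) (by
  intro g
  ext a
  simp)

theorem jA_apply (z : EN α) : jA α z = ⟨Coprod.inl z.left, z.right⟩ := rfl

/-- the embedding of `<x, δ> × Z` -/
def jF : F2 × Zm →* NN α where
  toFun p := ⟨κS δ p.1, p.2⟩
  map_one' := by
    ext <;> simp
  map_mul' p q := by
    ext
    · simp only [SemidirectProduct.mul_left, Prod.fst_mul, map_mul]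
      rw [extA_κS α δ hα]
    · rfl

theorem jF_apply (p : F2 × Zm) : jF α δ hα p = ⟨κS δ p.1, p.2⟩ := rfl

/-- the two factors -/
def EE : Bool → Type
  | false => EN α
  | true => F2 × Zm

instance : ∀ i, Group (EE α i)
  | false => inferInstanceAs (Group (EN α))
  | true => inferInstanceAs (Group (F2 × Zm))

/-- `<δ> × Z` in `A ⋊ Z` -/
def κA : Zm × Zm →* EN α where
  toFun p := ⟨pw δ p.1, p.2⟩
  map_one' := by ext <;> simp
  map_mul' p q := by
    ext
    · simp only [SemidirectProduct.mul_left, Prod.fst_mul, map_mul]
      congr 1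
      have := map_pw (α p.2).toMonoidHom δ q.1
      simp only [MulEquiv.toMonoidHom_eq_coe, MonoidHom.coe_coe, hα] at this
      exact this.symm
    · rfl

theorem κA_apply (p : Zm × Zm) : κA α δ hα p = ⟨pw δ p.1, p.2⟩ := rfl

/-- `<δ> × Z` in `<x, δ> × Z` -/
def κF : Zm × Zm →* F2 × Zm := (pw (FreeGroup.of false)).prodMap (MonoidHom.id Zm)

theorem κF_apply (p : Zm × Zm) : κF p = (pw (FreeGroup.of false) p.1, p.2) := rfl

theorem κF_injective : Injective κF := by
  intro a b h
  rw [κF_apply, κF_apply, Prod.mk.injEq] at h
  exact Prod.ext (pw_of_injective false h.1) h.2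

/-- the common subgroup -/
def κN : ∀ i, Zm × Zm →* EE α i
  | false => κA α δ hα
  | true => κF

theorem κA_injective (hδ : Injective (pw δ)) : Injective (κA α δ hα) := by
  intro a b h
  have h1 := congrArg SemidirectProduct.left h
  have h2 := congrArg SemidirectProduct.right h
  exact Prod.ext (hδ h1) h2

theorem κN_injective (hδ : Injective (pw δ)) : ∀ i, Injective (κN α δ hα i)
  | false => κA_injective α δ hα hδ
  | true => κF_injective

/-- the factor `A ⋊ Z` of the amalgamated product -/
def ofA : EN α →* PushoutI (κN α δ hα) := PushoutI.of (φ := κN α δ hα) false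

/-- the factor `<x, δ> × Z` of the amalgamated product -/
def ofF : F2 × Zm →* PushoutI (κN α δ hα) := PushoutI.of (φ := κN α δ hα) true

theorem ofA_κA (p : Zm × Zm) : ofA α δ hα (κA α δ hα p) = ofF α δ hα (κF p) := by
  have h1 := PushoutI.of_apply_eq_base (κN α δ hα) false p
  have h2 := PushoutI.of_apply_eq_base (κN α δ hα) true p
  exact h1.trans h2.symm

/-- the map to the amalgamated product -/
def retN : NN α →* PushoutI (κN α δ hα) :=
  SemidirectProduct.lift
    (sgLift ((ofA α δ hα).comp SemidirectProduct.inl) (ofF α δ hα (FreeGroup.of true, 1)))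
    ((ofA α δ hα).comp SemidirectProduct.inr) (by
      intro g
      refine sg_ext (fun a => ?_) ?_
      · simp only [MonoidHom.comp_apply, MulEquiv.toMonoidHom_eq_coe, MonoidHom.coe_coe, extA_inl,
          sgLift_inl, MulAut.conj_apply]
        rw [SemidirectProduct.inl_aut, map_mul, map_mul]
        simp
      · simp only [MonoidHom.comp_apply, MulEquiv.toMonoidHom_eq_coe, MonoidHom.coe_coe, extA_x,
          sgLift_x, MulAut.conj_apply]
        have h1 : (SemidirectProduct.inr g : EN α) = κA α δ hα (1, g) := by
          rw [κA_apply]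
          ext <;> simp
        rw [h1, ofA_κA, ← map_mul, ← map_inv, ← map_mul]
        congr 1
        rw [κF_apply]
        refine Prod.ext ?_ ?_ <;> simp)

/-- the wall group as an amalgamated product -/
def amN (hδ : Injective (pw δ)) : Am (Zm × Zm) (NN α) (EE α) where
  κ := κN α δ hα
  inj := κN_injective α δ hα hδ
  e
    | false => jA α
    | true => jF α δ hα
  comm
    | false, p => by
      change jA α (κA α δ hα p) = jF α δ hα (κF p)
      rw [jA_apply, jF_apply, κA_apply, κF_apply]
      ext
      · simp only
        rw [map_pw, map_pw, κS_false]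
      · rfl
    | true, p => by
      change jF α δ hα (κF p) = jA α (κA α δ hα p)
      rw [jA_apply, jF_apply, κA_apply, κF_apply]
      ext
      · simp only
        rw [map_pw, map_pw, κS_false]
      · rfl
  ret := retN α δ hα
  ret_e
    | false, z => by
      change retN α δ hα (jA α z) = ofA α δ hα z
      have h : (retN α δ hα).comp (jA α) = ofA α δ hα := by
        refine SemidirectProduct.hom_ext ?_ ?_
        · ext a
          change retN α δ hα (jA α (SemidirectProduct.inl a)) = ofA α δ hα (SemidirectProduct.inl a)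
          rw [jA, SemidirectProduct.map_inl, retN, SemidirectProduct.lift_inl, sgLift_inl]
          rfl
        · refine zm_ext ?_
          change retN α δ hα (jA α (SemidirectProduct.inr _)) = ofA α δ hα (SemidirectProduct.inr _)
          rw [jA, SemidirectProduct.map_inr, retN, SemidirectProduct.lift_inr]
          rfl
      exact DFunLike.congr_fun h z
    | true, z => by
      change retN α δ hα (jF α δ hα z) = ofF α δ hα z
      have h1 : ((retN α δ hα).comp (jF α δ hα)).comp (MonoidHom.inl F2 Zm) =
          (ofF α δ hα).comp (MonoidHom.inl F2 Zm) := by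
        refine FreeGroup.ext_hom _ _ ?_
        rintro (_ | _)
        · change retN α δ hα ⟨κS δ (FreeGroup.of false), 1⟩ = ofF α δ hα (FreeGroup.of false, 1)
          rw [κS_false]
          change retN α δ hα (SemidirectProduct.inl (Coprod.inl δ)) = _
          rw [retN, SemidirectProduct.lift_inl, sgLift_inl]
          have h2 := ofA_κA α δ hα (Multiplicative.ofAdd 1, 1)
          rw [κA_apply, κF_apply] at h2
          simp only [pw_ofAdd_one] at h2
          exact h2
        · change retN α δ hα ⟨κS δ (FreeGroup.of true), 1⟩ = ofF α δ hα (FreeGroup.of true, 1)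
          rw [κS_true]
          change retN α δ hα (SemidirectProduct.inl xS) = _
          rw [retN, SemidirectProduct.lift_inl, sgLift_x]
      have h3 : ((retN α δ hα).comp (jF α δ hα)).comp (MonoidHom.inr F2 Zm) =
          (ofF α δ hα).comp (MonoidHom.inr F2 Zm) := by
        refine zm_ext ?_
        change retN α δ hα ⟨κS δ 1, Multiplicative.ofAdd 1⟩ = ofF α δ hα (1, Multiplicative.ofAdd 1)
        have h2 := ofA_κA α δ hα (1, Multiplicative.ofAdd 1)
        rw [κA_apply, κF_apply] at h2
        simp only [map_one] at h2 ⊢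
        rw [← h2]
        change retN α δ hα (SemidirectProduct.inr _) = _
        rw [retN, SemidirectProduct.lift_inr]
        rfl
      have h4 : z = MonoidHom.inl F2 Zm z.1 * MonoidHom.inr F2 Zm z.2 := by
        simp
      rw [h4, map_mul, map_mul, map_mul]
      exact congrArg₂ (fun a b => a * b) (DFunLike.congr_fun h1 z.1) (DFunLike.congr_fun h3 z.2)

end Pool.GSP
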