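import Pool.Agent.Lib.GSP.WheelTri

/-!
# The corners of a pinwheel
-/

namespace Pool.GSP

open Function Monoid

namespace Hn

variable {H W U : Type*} [Group H] [Group W] [Group U] (X : Hn H W U)

theorem s_ne_inc (w : W) : X.inc w ≠ X.s := by
  intro h
  have h1 := (X.key (ε := false) (ε2 := true) (h := 1) (w := w⁻¹) (by simp [h])).1
  exact absurd h1 (by decide)

end Hn

theorem s_ne1 {a b : F2 × Zm} (h : iT a = tT⁻¹ * iT b) : False := by
  refine hnT.s_ne_inc (b * a⁻¹) ?_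
  change iT (b * a⁻¹) = tT
  rw [map_mul, map_inv, h]
  group

theorem s_ne2 {a b : F2 × Zm} (h : iT a * tT⁻¹ = iT b) : False := by
  refine hnT.s_ne_inc (b⁻¹ * a) ?_
  change iT (b⁻¹ * a) = tT
  rw [map_mul, map_inv, ← h]
  group

theorem s_ne3 {a b : F2 × Zm} (h : iT a = tT * iT b) : False := by
  refine hnT.s_ne_inc (a * b⁻¹) ?_
  change iT (a * b⁻¹) = tT
  rw [map_mul, map_inv, h]
  group

theorem s_ne4 {a b : F2 × Zm} (h : iT a * tT = iT b) : False := by
  refine hnT.s_ne_inc (a⁻¹ * b) ?_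
  change iT (a⁻¹ * b) = tT
  rw [map_mul, map_inv, ← h]
  group

namespace Wheel

variable {A B G0 G1 : Type} [Group A] [Group B] [Group G0] [Group G1] (X : Wheel A B G0 G1)

theorem comm1 (m n : Zm) : X.g (pw xS n) * pw (X.f X.δ) m = pw (X.f X.δ) m * X.g (pw xS n) := by
  rw [map_pw]
  have h : Commute (X.g xS) (X.f X.δ) := X.actY.symm
  exact (h.zpow_zpow n.toAdd m.toAdd).eq

theorem comm2 (m n : Zm) : X.g (pw (Coprod.inl X.δ' * xS) n) * pw (X.f X.δ) m =
    pw (X.f X.δ) m * X.g (pw (Coprod.inl X.δ' * xS) n) := by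
  rw [map_pw]
  have h1 : Commute (X.g xS) (X.f X.δ) := X.actY.symm
  have h2 : Commute (X.g (Coprod.inl X.δ')) (X.f X.δ) := by
    have h3 := X.actB X.δ'
    rw [X.hμ, mul_inv_eq_iff_eq_mul] at h3
    exact h3.symm
  have h : Commute (X.g (Coprod.inl X.δ' * xS)) (X.f X.δ) := by
    rw [map_mul]
    exact h2.mul_left h1
  exact (h.zpow_zpow n.toAdd m.toAdd).eq

theorem comm11 (m n : Zm) : X.q (pw X.δ' n) * pw (X.p cmF) m =
    pw (X.p cmF) m * X.q (pw X.δ' n) := by
  rw [map_pw]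
  have h : Commute (X.q X.δ') (X.p cmF) := X.act1' _
  exact (h.zpow_zpow n.toAdd m.toAdd).eq

theorem brick (t : TE) (z : Zm × Zm) : X.bP (pT t) (X.eP t z) = X.bQ (qT t) (X.eQ t z) := by
  cases t
  · change X.i0 (X.P1 (X.fM (sw gx z))) = X.i0 (X.Q1 (κA (pw X.ν) X.δ X.fixA z))
    rw [P1_apply, Q1_apply, fM, jF_apply, κA_apply, sw_apply]
    simp only
    rw [κS_pw_true, X.comm1, ← map_pw]
  · change X.i0 (X.P1 (X.fM (sw dy z))) = X.i0 (X.Q2 (κA (pw X.ν') X.δ X.fixA' z))
    rw [P1_apply, Q2_apply, fM, jF_apply, κA_apply, sw_apply]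
    simp only
    rw [κS_pw_dy, X.comm2, map_pw X.f', X.ff']
  · rfl
  · rfl
  · rfl
  · rfl
  · rfl
  · rfl
  · rfl
  · rfl
  · change X.i1 (X.P2 (κA (pw X.μ) X.δ' X.fixB (z.2, z.1))) = X.i1 (X.Q5 (iT (st gd z)))
    rw [P2_apply, Q5_apply, κA_apply, iT_apply, st_apply]
    simp only
    rw [X.comm11, map_pw κT, κT_false', ← map_pw X.p]
  · rfl

theorem inl_pw {N : Type*} [Group N] {φ : Zm →* MulAut N} (a : N) (m n : Zm) :
    (⟨pw a m, n⟩ : N ⋊[φ] Zm) = pw (SemidirectProduct.inl a) m *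
      pw (SemidirectProduct.inr (Multiplicative.ofAdd 1)) n := by
  rw [SemidirectProduct.mk_eq_inl_mul_inr, map_pw]
  congr 1
  have : (SemidirectProduct.inr : Zm →* N ⋊[φ] Zm) =
      pw (SemidirectProduct.inr (Multiplicative.ofAdd 1)) := zm_ext (by simp)
  exact DFunLike.congr_fun this n

theorem Ψfix (z : Zm × Zm) : X.fN' (st gx z) = X.fN (st gx z) := by
  have h1 : X.fN (st gx z) = pw (SemidirectProduct.inl xS) z.1 *
      pw (SemidirectProduct.inr (Multiplicative.ofAdd 1)) z.2 := by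
    rw [fN, jF_apply, st_apply]
    simp only
    rw [κS_pw_true, inl_pw]
  have h2 : X.fN' (st gx z) = X.Ψ (pw (SemidirectProduct.inl xS) z.1 *
      pw (SemidirectProduct.inr (Multiplicative.ofAdd 1)) z.2) := by
    change X.Ψ (jF (pw X.ν') X.δ X.fixA' (st gx z)) = _
    rw [jF_apply, st_apply]
    simp only
    rw [κS_pw_true, inl_pw]
  rw [h1, h2, map_mul]
  have h3 := map_pw X.Ψ.toMonoidHom (SemidirectProduct.inl xS) z.1
  have h4 := map_pw X.Ψ.toMonoidHom (SemidirectProduct.inr (Multiplicative.ofAdd 1)) z.2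
  simp only [MulEquiv.toMonoidHom_eq_coe, MonoidHom.coe_coe, X.Ψx, X.Ψy] at h3 h4
  rw [h3, h4]

theorem Ψconj (z : Zm × Zm) : X.fN' (st dy z) * X.w = X.w * X.fN (st dy z) := by
  have h1 : X.fN (st dy z) = pw (SemidirectProduct.inl (Coprod.inl X.δ * xS)) z.1 *
      pw (SemidirectProduct.inr (Multiplicative.ofAdd 1)) z.2 := by
    rw [fN, jF_apply, st_apply]
    simp only
    rw [κS_pw_dy, inl_pw]
  have h2 : X.fN' (st dy z) = X.Ψ (pw (SemidirectProduct.inl (Coprod.inl X.δ * xS)) z.1 *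
      pw (SemidirectProduct.inr (Multiplicative.ofAdd 1)) z.2) := by
    change X.Ψ (jF (pw X.ν') X.δ X.fixA' (st dy z)) = _
    rw [jF_apply, st_apply]
    simp only
    rw [κS_pw_dy, inl_pw]
  rw [h1, h2, map_mul]
  have h3 := map_pw X.Ψ.toMonoidHom (SemidirectProduct.inl (Coprod.inl X.δ * xS)) z.1
  have h4 := map_pw X.Ψ.toMonoidHom (SemidirectProduct.inr (Multiplicative.ofAdd 1)) z.2
  simp only [MulEquiv.toMonoidHom_eq_coe, MonoidHom.coe_coe, X.Ψy] at h3 h4
  rw [h3, h4, mul_assoc]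
  have h5 : pw (SemidirectProduct.inr (Multiplicative.ofAdd 1)) z.2 * X.w =
      X.w * pw (SemidirectProduct.inr (Multiplicative.ofAdd 1)) z.2 := pw_comm X.wy z.2
  have h6 : pw (X.Ψ (SemidirectProduct.inl (Coprod.inl X.δ * xS))) z.1 * X.w =
      X.w * pw (SemidirectProduct.inl (Coprod.inl X.δ * xS)) z.1 := by
    have h7 : X.Ψ (SemidirectProduct.inl (Coprod.inl X.δ * xS)) =
        X.w * SemidirectProduct.inl (Coprod.inl X.δ * xS) * X.w⁻¹ := by
      rw [← X.Ψw]
      group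
    have h8 := map_pw (MulAut.conj X.w).toMonoidHom
      (SemidirectProduct.inl (Coprod.inl X.δ * xS)) z.1
    simp only [MulEquiv.toMonoidHom_eq_coe, MonoidHom.coe_coe, MulAut.conj_apply] at h8
    rw [h7, ← h8]
    group
  rw [h5, ← mul_assoc, h6, mul_assoc]

theorem relT' (h : Zm × Zm) : iT (cT h) * tT = tT * iT (dT h) := by
  rw [← relT h]
  group

theorem Φfix (z : Zm × Zm) : X.iT' (sw gd z) = iT (sw gd z) := by
  have h1 : iT (sw gd z) = pw (cmF, 1) z.2 * pw (1, Multiplicative.ofAdd 1) z.1 := by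
    rw [iT_apply, sw_apply]
    simp only
    rw [map_pw, κT_false']
    have h2 : ∀ n : Zm, pw ((cmF, 1) : F2 × Zm) n = (pw cmF n, 1) := by
      intro n
      have := map_pw (MonoidHom.inl F2 Zm) cmF n
      exact this.symm
    have h3 : ∀ n : Zm, pw ((1, Multiplicative.ofAdd 1) : F2 × Zm) n = (1, n) := by
      intro n
      have h4 : (MonoidHom.inr F2 Zm) = pw (1, Multiplicative.ofAdd 1) := zm_ext (by simp)
      rw [← h4]
      rfl
    rw [h2, h3]
    simp
  change X.Φ (iT (sw gd z)) = _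
  rw [h1, map_mul]
  have h3 := map_pw X.Φ.toMonoidHom (cmF, 1) z.2
  have h4 := map_pw X.Φ.toMonoidHom (1, Multiplicative.ofAdd 1) z.1
  simp only [MulEquiv.toMonoidHom_eq_coe, MonoidHom.coe_coe, X.Φx, X.Φδ] at h3 h4
  rw [h3, h4]

theorem F1 (t : TE) (z : Zm × Zm) :
    X.wQ (qT t) (X.eQ t z) * X.xT t = X.xT t * X.rN (rT t) z := by
  cases t
  · exact (mul_one _).trans (one_mul _).symm
  · exact (mul_one _).trans (one_mul _).symm
  · refine (mul_one _).trans (Eq.trans ?_ (one_mul _).symm)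
    exact congrArg X.n2 (X.commN z).symm
  · refine (mul_one _).trans (Eq.trans ?_ (one_mul _).symm)
    exact congrArg X.n2 (X.commN' z).symm
  · exact (mul_one _).trans (one_mul _).symm
  · refine (mul_one _).trans (Eq.trans ?_ (one_mul _).symm)
    exact congrArg X.n2 (X.Ψfix z)
  · exact (mul_one _).trans (one_mul _).symm
  · change X.n2 (X.fN' (st dy z)) * X.n2 X.w = X.n2 X.w * X.n2 (X.fN (st dy z))
    rw [← map_mul, ← map_mul, X.Ψconj]
  · exact (mul_one _).trans (one_mul _).symm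
  · change X.n1 (iT (cT z)) * X.n1 tT = X.n1 tT * X.n1 (iT (dT z))
    rw [← map_mul, ← map_mul, relT']
  · exact (mul_one _).trans (one_mul _).symm
  · exact (mul_one _).trans (one_mul _).symm

theorem F2' (t : TE) (z : Zm × Zm) :
    X.rM (rT t) z * X.bT t = X.bT t * X.wP (pT t) (X.eP t z) := by
  cases t
  · exact (mul_one _).trans (one_mul _).symm
  · exact (mul_one _).trans (one_mul _).symm
  · exact (mul_one _).trans (one_mul _).symm
  · exact (mul_one _).trans (one_mul _).symm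
  · exact (mul_one _).trans (one_mul _).symm
  · change X.m2 (iT (dT (z.2, z.1))) * X.m2 tT⁻¹ = X.m2 tT⁻¹ * X.m2 (iT (cT (z.2, z.1)))
    rw [← map_mul, ← map_mul, ← relT]
    congr 1
    group
  · exact (mul_one _).trans (one_mul _).symm
  · change X.m2 (X.Φ (iT (dT (z.2, z.1)))) * X.m2 (X.Φ tT)⁻¹ =
      X.m2 (X.Φ tT)⁻¹ * X.m2 (X.Φ (iT (cT (z.2, z.1))))
    rw [← map_mul, ← map_mul, ← relT, ← map_inv, ← map_mul, ← map_mul]
    congr 2
    group
  · exact (mul_one _).trans (one_mul _).symm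
  · refine (mul_one _).trans (Eq.trans ?_ (one_mul _).symm)
    exact congrArg X.m2 (X.Φfix z).symm
  · refine (mul_one _).trans (Eq.trans ?_ (one_mul _).symm)
    exact congrArg X.m1 (X.commM (z.2, z.1)).symm
  · exact (mul_one _).trans (one_mul _).symm

theorem inter (t : TE) (u : X.EP (pT t)) (v : X.EQ (qT t)) (h : X.bP (pT t) u = X.bQ (qT t) v) :
    ∃ z, u = X.eP t z ∧ v = X.eQ t z := by
  cases t
  · exact X.inter1 (X.i0_injective h)
  · exact X.inter2 (X.i0_injective h)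
  · exact inter_s (X.i2_injective h)
  · exact inter_s (X.i2_injective h)
  · exact inter_s (X.i2_injective h)
  · exact inter_s (X.i2_injective h)
  · exact inter_s (X.i2_injective h)
  · exact inter_s (X.i2_injective h)
  · exact inter_s (X.i2_injective h)
  · exact inter_s (X.i2_injective h)
  · exact X.inter11 (X.i1_injective h)
  · exact inter_s (X.i2_injective h)

theorem condV {t t' : TE} {z : Zm × Zm} (u : X.EP (pT t)) (h1 : pT t = pT t')
    (h2 : rT t = rT t') (h : X.rM (rT t) z * X.bT t = X.bT t' * X.wP (pT t) u) : t = t' := by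
  cases t <;> cases t' <;> first
    | rfl
    | exact absurd h1 (by decide)
    | exact absurd h2 (by decide)
    | skip
  · exfalso
    change X.m2 (iT (sw gx z)) * 1 = X.m2 tT⁻¹ * X.m2 (iT u) at h
    rw [mul_one, ← map_mul] at h
    exact s_ne1 (X.m2_injective h)
  · exfalso
    change X.m2 (iT (sw gx z)) * X.m2 tT⁻¹ = 1 * X.m2 (iT u) at h
    rw [one_mul, ← map_mul] at h
    exact s_ne2 (X.m2_injective h)
  · exfalso
    change X.m2 (X.Φ (iT (sw gx z))) * 1 = X.m2 (X.Φ tT)⁻¹ * X.m2 (X.Φ (iT u)) at h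
    rw [mul_one, ← map_mul, ← map_inv, ← map_mul] at h
    exact s_ne1 (X.Φ.injective (X.m2_injective h))
  · exfalso
    change X.m2 (X.Φ (iT (sw gx z))) * X.m2 (X.Φ tT)⁻¹ = 1 * X.m2 (X.Φ (iT u)) at h
    rw [one_mul, ← map_mul, ← map_inv, ← map_mul] at h
    exact s_ne2 (X.Φ.injective (X.m2_injective h))

theorem condH {t t' : TE} {z : Zm × Zm} (v : X.EQ (qT t)) (h1 : qT t = qT t')
    (h2 : rT t = rT t') (h : X.wQ (qT t) v * X.xT t = X.xT t' * X.rN (rT t) z) : t = t' := by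
  cases t <;> cases t' <;> first
    | rfl
    | exact absurd h1 (by decide)
    | exact absurd h2 (by decide)
    | skip
  · exfalso
    change X.n1 (iT v) * 1 = X.n1 tT * X.n1 (iT (st gx z)) at h
    rw [mul_one, ← map_mul] at h
    exact s_ne3 (X.n1_injective h)
  · exfalso
    change X.n1 (iT v) * X.n1 tT = 1 * X.n1 (iT (st gx z)) at h
    rw [one_mul, ← map_mul] at h
    exact s_ne4 (X.n1_injective h)

/-- the corner data of a pinwheel -/
def cor : Corner X.Gm PE QE RE TE (Zm × Zm) where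
  LP e := ((X.bP e).prod (X.wP e)).range
  LQ e := ((X.bQ e).prod (X.wQ e)).range
  LP_left {e a} h := by
    obtain ⟨u, hu⟩ := h
    have h1 : X.wP e u = 1 := congrArg Prod.snd hu
    rw [map_eq_one_iff _ (X.wP_injective e)] at h1
    subst h1
    exact (congrArg Prod.fst hu).symm.trans (map_one _)
  LP_right {e a} h := by
    obtain ⟨u, hu⟩ := h
    have h1 : X.bP e u = 1 := congrArg Prod.fst hu
    rw [map_eq_one_iff _ (X.bP_injective e)] at h1
    subst h1
    exact (congrArg Prod.snd hu).symm.trans (map_one _)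
  LQ_left {e a} h := by
    obtain ⟨u, hu⟩ := h
    have h1 : X.wQ e u = 1 := congrArg Prod.snd hu
    rw [map_eq_one_iff _ (X.wQ_injective e)] at h1
    subst h1
    exact (congrArg Prod.fst hu).symm.trans (map_one _)
  LQ_right {e a} h := by
    obtain ⟨u, hu⟩ := h
    have h1 : X.bQ e u = 1 := congrArg Prod.fst hu
    rw [map_eq_one_iff _ (X.bQ_injective e)] at h1
    subst h1
    exact (congrArg Prod.snd hu).symm.trans (map_one _)
  hR e := (X.rN e).prod (X.rM e)
  hR_left {e z} h := (map_eq_one_iff _ (X.rN_injective e)).1 h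
  hR_right {e z} h := (map_eq_one_iff _ (X.rM_injective e)).1 h
  p := pT
  q := qT
  r := rT
  x := X.xT
  b := X.bT
  kind := kT
  cP t := ((X.bP (pT t)).prod (X.wP (pT t))).comp (X.eP t)
  cQ t := ((X.bQ (qT t)).prod (X.wQ (qT t))).comp (X.eQ t)
  cP_mem t z := ⟨X.eP t z, rfl⟩
  cQ_mem t z := ⟨X.eQ t z, rfl⟩
  brick t z := X.brick t z
  F1 t z := X.F1 t z
  F2 t z := X.F2' t z
  inter {t l l' m'} h h' := by
    obtain ⟨u, hu⟩ := h
    obtain ⟨v, hv⟩ := h'
    have h1 : X.bP (pT t) u = X.bQ (qT t) v :=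
      (congrArg Prod.fst hu).trans (congrArg Prod.fst hv).symm
    obtain ⟨z, rfl, rfl⟩ := X.inter t u v h1
    exact ⟨z, hu.symm, hv.symm⟩
  pq {t t'} h h' := by
    cases t <;> cases t' <;> first
      | rfl
      | exact absurd h (by decide)
      | exact absurd h' (by decide)
  V {t t' z l l'} h1 h2 h3 h := by
    obtain ⟨u, hu⟩ := h3
    have h4 : X.wP (pT t) u = l' := congrArg Prod.snd hu
    rw [← h4] at h
    exact X.condV u h1 h2 h
  Hh {t t' z m m'} h1 h2 h3 h := by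
    obtain ⟨v, hv⟩ := h3
    have h4 : X.wQ (qT t) v = m' := congrArg Prod.snd hv
    rw [← h4] at h
    exact X.condH v h1 h2 h

end Wheel

end Pool.GSP
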