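import Pool.Agent.Lib.GSP.WheelCor

/-!
# The link conditions of a pinwheel
-/

namespace Pool.GSP

open Function Monoid Pool.GSE

namespace Wheel

variable {A B G0 G1 : Type} [Group A] [Group B] [Group G0] [Group G1] (X : Wheel A B G0 G1)

/-- the triangle data -/
abbrev D : TriData X.Gm PE QE RE TE := X.cor.tri

/-- values of the paths of angle zero at the vertical walls -/
def ZV : TE → X.Gm → PE → Prop
  | .t5, g, e1 => e1 = .p4 ∧ ∃ g', g = X.m2 g' ∧ hnT.RP false g'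
  | .t6, g, e1 => e1 = .p4 ∧ ∃ g', g = X.m2 g' ∧ hnT.RP true g'
  | .t7, g, e1 => e1 = .p5 ∧ ∃ g', g = X.m2 (X.Φ g') ∧ hnT.RP false g'
  | .t8, g, e1 => e1 = .p5 ∧ ∃ g', g = X.m2 (X.Φ g') ∧ hnT.RP true g'
  | .t11, g, e1 => ∃ j g', g = X.m1 g' ∧ X.amM.AP true j g' ∧ e1 = if j then .p3 else .p2
  | .t12, g, e1 => ∃ j g', g = X.m1 g' ∧ X.amM.AP false j g' ∧ e1 = if j then .p3 else .p2
  | _, _, _ => False

theorem rp_cons_f {u : F2 × Zm} {ε : Bool} {g : F2 × Zm} (h : hnT.RP ε g)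
    (hu : ε = true → ∀ h, u ≠ cT h) : hnT.RP false (tT⁻¹ * iT u * g) := by
  refine Hn.RP.cons (X := hnT) (ε := false) (w := u) ?_ h
  rintro ⟨h1, z, h2⟩
  exact hu h1 z h2.symm

theorem rp_cons_t {u : F2 × Zm} {ε : Bool} {g : F2 × Zm} (h : hnT.RP ε g)
    (hu : ε = false → ∀ h, u ≠ dT h) : hnT.RP true (tT * iT u * g) := by
  refine Hn.RP.cons (X := hnT) (ε := true) (w := u) ?_ h
  rintro ⟨h1, z, h2⟩
  exact hu h1 z h2.symm

theorem zv {t : TE} {g : X.Gm} {e1 : PE} (h : X.D.ZP t g e1) : X.ZV t g e1 := by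
  induction h with
  | @single t t' l l' h1 h2 h3 h4 =>
    obtain ⟨u, hu⟩ := h4
    have h5 : X.wP (pT t') u = l' := congrArg Prod.snd hu
    subst h5
    change rT t = rT t' at h1
    change kT (rT t) = true at h3
    change X.ZV t ((X.bT t)⁻¹ * X.bT t' * X.wP (pT t') u) (pT t')
    clear hu
    cases t <;> cases t' <;> first
      | exact absurd h1 (by decide)
      | exact absurd h3 (by decide)
      | exact absurd rfl h2
      | skip
    · refine ⟨rfl, tT⁻¹ * iT u, ?_, Hn.RP.single (X := hnT) false u⟩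
      rw [map_mul]
      change 1⁻¹ * X.m2 tT⁻¹ * X.m2 (iT u) = _
      rw [inv_one, one_mul]
    · refine ⟨rfl, tT * iT u, ?_, Hn.RP.single (X := hnT) true u⟩
      rw [map_mul]
      change (X.m2 tT⁻¹)⁻¹ * 1 * X.m2 (iT u) = _
      rw [map_inv, inv_inv, mul_one]
    · refine ⟨rfl, tT⁻¹ * iT u, ?_, Hn.RP.single (X := hnT) false u⟩
      rw [map_mul, map_mul, map_inv]
      change 1⁻¹ * X.m2 (X.Φ tT)⁻¹ * X.m2 (X.Φ (iT u)) = _
      rw [inv_one, one_mul]
    · refine ⟨rfl, tT * iT u, ?_, Hn.RP.single (X := hnT) true u⟩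
      rw [map_mul, map_mul]
      change (X.m2 (X.Φ tT)⁻¹)⁻¹ * 1 * X.m2 (X.Φ (iT u)) = _
      rw [map_inv, inv_inv, mul_one]
    · refine ⟨true, X.fM u, ?_, Am.AP.single (X := X.amM) true u, rfl⟩
      change 1⁻¹ * 1 * X.m1 (X.fM u) = _
      rw [inv_one, one_mul, one_mul]
    · refine ⟨false, jA (pw X.μ) u, ?_, Am.AP.single (X := X.amM) false u, rfl⟩
      change 1⁻¹ * 1 * X.m1 (jA (pw X.μ) u) = _
      rw [inv_one, one_mul, one_mul]
  | @cons t t' tt l l' g e1 h1 h2 h3 h4 h5 h6 _ ih =>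
    obtain ⟨u, hu⟩ := h5
    have h7 : X.wP (pT t') u = l' := congrArg Prod.snd hu
    subst h7
    change rT t = rT t' at h1
    change kT (rT t) = true at h3
    change pT t' = pT tt at h4
    change X.ZV t ((X.bT t)⁻¹ * X.bT t' * X.wP (pT t') u * g) e1
    have h8 : ∀ z, rT t' = rT tt →
        X.bT t' * X.wP (pT t') u * (X.bT tt)⁻¹ = X.rM (rT t') z → False := by
      intro z hr hz
      refine h6 ⟨hr, X.rN (rT t') z, z, ?_⟩
      exact Prod.ext rfl hz.symm
    clear hu h6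
    cases t <;> cases t' <;> first
      | exact absurd h1 (by decide)
      | exact absurd h3 (by decide)
      | exact absurd rfl h2
      | (cases tt <;> first
          | exact absurd h4 (by decide)
          | exact ih.elim
          | skip)
    · -- t5 t6 t5
      obtain ⟨rfl, g', rfl, h9⟩ := ih
      refine ⟨rfl, tT⁻¹ * iT u * g', ?_, rp_cons_f h9 fun h => absurd h (by decide)⟩
      rw [map_mul, map_mul]
      change 1⁻¹ * X.m2 tT⁻¹ * X.m2 (iT u) * X.m2 g' = _
      rw [inv_one, one_mul]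
    · -- t5 t6 t6
      obtain ⟨rfl, g', rfl, h9⟩ := ih
      refine ⟨rfl, tT⁻¹ * iT u * g', ?_, rp_cons_f h9 fun _ h hc => ?_⟩
      · rw [map_mul, map_mul]
        change 1⁻¹ * X.m2 tT⁻¹ * X.m2 (iT u) * X.m2 g' = _
        rw [inv_one, one_mul]
      · refine h8 (h.2, h.1) rfl ?_
        change X.m2 tT⁻¹ * X.m2 (iT u) * (X.m2 tT⁻¹)⁻¹ = X.m2 (iT (dT h))
        rw [map_inv, inv_inv, ← map_inv, ← map_mul, ← map_mul, hc, relT]
    · -- t6 t5 t5
      obtain ⟨rfl, g', rfl, h9⟩ := ih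
      refine ⟨rfl, tT * iT u * g', ?_, rp_cons_t h9 fun _ h hc => ?_⟩
      · rw [map_mul, map_mul]
        change (X.m2 tT⁻¹)⁻¹ * 1 * X.m2 (iT u) * X.m2 g' = _
        rw [map_inv, inv_inv, mul_one]
      · refine h8 (h.2, h.1) rfl ?_
        change 1 * X.m2 (iT u) * 1⁻¹ = X.m2 (iT (dT h))
        rw [hc, one_mul, inv_one, mul_one]
    · -- t6 t5 t6
      obtain ⟨rfl, g', rfl, h9⟩ := ih
      refine ⟨rfl, tT * iT u * g', ?_, rp_cons_t h9 fun h => absurd h (by decide)⟩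
      rw [map_mul, map_mul]
      change (X.m2 tT⁻¹)⁻¹ * 1 * X.m2 (iT u) * X.m2 g' = _
      rw [map_inv, inv_inv, mul_one]
    · -- t7 t8 t7
      obtain ⟨rfl, g', rfl, h9⟩ := ih
      refine ⟨rfl, tT⁻¹ * iT u * g', ?_, rp_cons_f h9 fun h => absurd h (by decide)⟩
      rw [map_mul, map_mul, map_mul, map_mul, map_inv]
      change 1⁻¹ * X.m2 (X.Φ tT)⁻¹ * X.m2 (X.Φ (iT u)) * X.m2 (X.Φ g') = _
      rw [inv_one, one_mul]
    · -- t7 t8 t8
      obtain ⟨rfl, g', rfl, h9⟩ := ih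
      refine ⟨rfl, tT⁻¹ * iT u * g', ?_, rp_cons_f h9 fun _ h hc => ?_⟩
      · rw [map_mul, map_mul, map_mul, map_mul, map_inv]
        change 1⁻¹ * X.m2 (X.Φ tT)⁻¹ * X.m2 (X.Φ (iT u)) * X.m2 (X.Φ g') = _
        rw [inv_one, one_mul]
      · refine h8 (h.2, h.1) rfl ?_
        change X.m2 (X.Φ tT)⁻¹ * X.m2 (X.Φ (iT u)) * (X.m2 (X.Φ tT)⁻¹)⁻¹ = X.m2 (X.Φ (iT (dT h)))
        rw [← map_inv X.m2, inv_inv, ← map_mul, ← map_mul, ← map_inv, ← map_mul, ← map_mul, hc, relT]
    · -- t8 t7 t7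
      obtain ⟨rfl, g', rfl, h9⟩ := ih
      refine ⟨rfl, tT * iT u * g', ?_, rp_cons_t h9 fun _ h hc => ?_⟩
      · rw [map_mul, map_mul, map_mul, map_mul]
        change (X.m2 (X.Φ tT)⁻¹)⁻¹ * 1 * X.m2 (X.Φ (iT u)) * X.m2 (X.Φ g') = _
        rw [map_inv, inv_inv, mul_one]
      · refine h8 (h.2, h.1) rfl ?_
        change 1 * X.m2 (X.Φ (iT u)) * 1⁻¹ = X.m2 (X.Φ (iT (dT h)))
        rw [hc, one_mul, inv_one, mul_one]
    · -- t8 t7 t8
      obtain ⟨rfl, g', rfl, h9⟩ := ih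
      refine ⟨rfl, tT * iT u * g', ?_, rp_cons_t h9 fun h => absurd h (by decide)⟩
      rw [map_mul, map_mul, map_mul, map_mul]
      change (X.m2 (X.Φ tT)⁻¹)⁻¹ * 1 * X.m2 (X.Φ (iT u)) * X.m2 (X.Φ g') = _
      rw [map_inv, inv_inv, mul_one]
    · -- t11 t12 t12
      obtain ⟨j, g', rfl, h9, rfl⟩ := ih
      refine ⟨j, X.fM u * g', ?_, Am.AP.cons (X := X.amM) (i := true) u ?_ h9, rfl⟩
      · rw [map_mul]
        change 1⁻¹ * 1 * X.m1 (X.fM u) * X.m1 g' = _
        rw [inv_one, one_mul, one_mul]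
      · rintro ⟨h, hc⟩
        refine h8 (h.2, h.1) rfl ?_
        change 1 * X.m1 (X.fM u) * 1⁻¹ = X.m1 (X.fM (κF h))
        rw [one_mul, inv_one, mul_one, ← hc]
        rfl
    · -- t12 t11 t11
      obtain ⟨j, g', rfl, h9, rfl⟩ := ih
      refine ⟨j, jA (pw X.μ) u * g', ?_, Am.AP.cons (X := X.amM) (i := false) u ?_ h9, rfl⟩
      · rw [map_mul]
        change 1⁻¹ * 1 * X.m1 (jA (pw X.μ) u) * X.m1 g' = _
        rw [inv_one, one_mul, one_mul]
      · rintro ⟨h, hc⟩
        refine h8 (h.2, h.1) rfl ?_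
        change 1 * X.m1 (jA (pw X.μ) u) * 1⁻¹ = X.m1 (X.fM (κF h))
        rw [one_mul, inv_one, mul_one, ← X.commM, ← hc]
        rfl

/-- sides of the vertical edges -/
def psd : PE → Bool
  | .p1 => true | .p2 => false | .p3 => false | .p4 => true | .p5 => false

theorem vcond : X.D.VCond psd where
  fill h := X.cor.fill h
  side {t t'} h h' := by
    change rT t = rT t' at h
    change kT (rT t) = true at h'
    change psd (pT t) = psd (pT t')
    cases t <;> cases t' <;> first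
      | rfl
      | exact absurd h (by decide)
      | exact absurd h' (by decide)
  det {t t'} h h' h'' := by
    change rT t = rT t' at h
    change kT (rT t) = false at h'
    change psd (pT t) = psd (pT t') at h''
    cases t <;> cases t' <;> first
      | rfl
      | exact absurd h (by decide)
      | exact absurd h' (by decide)
      | exact absurd h'' (by decide)
  forest {t g} h := by
    have h1 := X.zv h
    change X.ZV t g (pT t) at h1
    clear h
    cases t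
    · exact h1.elim
    · exact h1.elim
    · exact h1.elim
    · exact h1.elim
    · obtain ⟨-, g', rfl, h2⟩ := h1
      exact fun h => h2.ne_one hnT ((map_eq_one_iff _ X.m2_injective).1 h)
    · obtain ⟨-, g', rfl, h2⟩ := h1
      exact fun h => h2.ne_one hnT ((map_eq_one_iff _ X.m2_injective).1 h)
    · obtain ⟨-, g', rfl, h2⟩ := h1
      exact fun h => h2.ne_one hnT ((map_eq_one_iff _ X.Φ.injective).1
        ((map_eq_one_iff _ X.m2_injective).1 h))
    · obtain ⟨-, g', rfl, h2⟩ := h1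
      exact fun h => h2.ne_one hnT ((map_eq_one_iff _ X.Φ.injective).1
        ((map_eq_one_iff _ X.m2_injective).1 h))
    · exact h1.elim
    · exact h1.elim
    · obtain ⟨j, g', rfl, h2, h3⟩ := h1
      cases j
      · exact fun h => h2.ne_one X.amM (by decide) ((map_eq_one_iff _ X.m1_injective).1 h)
      · exact absurd h3 (by decide)
    · obtain ⟨j, g', rfl, h2, h3⟩ := h1
      cases j
      · exact absurd h3 (by decide)
      · exact fun h => h2.ne_one X.amM (by decide) ((map_eq_one_iff _ X.m1_injective).1 h)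

end Wheel

end Pool.GSP
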