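import Pool.Agent.Lib.GSP.WheelForest

/-!
# The link conditions of a pinwheel, horizontal walls; the girth theorem
-/

namespace Pool.GSP

open Function Monoid Pool.GSE

namespace Wheel

variable {A B G0 G1 : Type} [Group A] [Group B] [Group G0] [Group G1] (X : Wheel A B G0 G1)

/-- values of the paths of angle zero at the horizontal walls -/
def ZH : TE → X.Gm → QE → Prop
  | .t1, g, e => ∃ j g', g = X.n2 g' ∧ X.amA.AP true j g' ∧ e = if j then .q3 else .q1
  | .t3, g, e => ∃ j g', g = X.n2 g' ∧ X.amA.AP false j g' ∧ e = if j then .q3 else .q1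
  | .t2, g, e => ∃ j g', g = X.n2 (X.Ψ g') ∧ X.amA'.AP true j g' ∧ e = if j then .q4 else .q2
  | .t4, g, e => ∃ j g', g = X.n2 (X.Ψ g') ∧ X.amA'.AP false j g' ∧ e = if j then .q4 else .q2
  | .t9, g, e => e = .q6 ∧ ∃ g', g = X.n1 g' ∧ hnT.RP false g'
  | .t10, g, e => e = .q6 ∧ ∃ g', g = X.n1 g' ∧ hnT.RP true g'
  | _, _, _ => False

theorem zh {t : TE} {g : X.Gm} {e : QE} (h : X.D.swap.ZP t g e) : X.ZH t g e := by
  induction h with
  | @single t t' l l' h1 h2 h3 h4 =>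
    obtain ⟨u, hu⟩ := h4
    have h5 : X.wQ (qT t') u = l' := congrArg Prod.snd hu
    subst h5
    change rT t = rT t' at h1
    change (!kT (rT t)) = true at h3
    change X.ZH t (((X.xT t)⁻¹)⁻¹ * (X.xT t')⁻¹ * X.wQ (qT t') u) (qT t')
    clear hu
    cases t <;> cases t' <;> first
      | exact absurd h1 (by decide)
      | exact absurd h3 (by decide)
      | exact absurd rfl h2
      | skip
    · -- t1 t3
      refine ⟨true, X.fN u, ?_, Am.AP.single (X := X.amA) true u, rfl⟩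
      change ((1 : X.Gm)⁻¹)⁻¹ * 1⁻¹ * X.n2 (X.fN u) = _
      rw [inv_one, inv_one, one_mul, one_mul]
    · -- t2 t4
      refine ⟨true, jF (pw X.ν') X.δ X.fixA' u, ?_, Am.AP.single (X := X.amA') true u, rfl⟩
      change ((1 : X.Gm)⁻¹)⁻¹ * 1⁻¹ * X.n2 (X.Ψ (jF (pw X.ν') X.δ X.fixA' u)) = _
      rw [inv_one, inv_one, one_mul, one_mul]
    · -- t3 t1
      refine ⟨false, jA (pw X.ν) u, ?_, Am.AP.single (X := X.amA) false u, rfl⟩
      change ((1 : X.Gm)⁻¹)⁻¹ * 1⁻¹ * X.n2 (jA (pw X.ν) u) = _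
      rw [inv_one, inv_one, one_mul, one_mul]
    · -- t4 t2
      refine ⟨false, jA (pw X.ν') u, ?_, Am.AP.single (X := X.amA') false u, rfl⟩
      change ((1 : X.Gm)⁻¹)⁻¹ * 1⁻¹ * X.n2 (X.Ψ (jA (pw X.ν') u)) = _
      rw [inv_one, inv_one, one_mul, one_mul]
    · -- t9 t10
      refine ⟨rfl, tT⁻¹ * iT u, ?_, Hn.RP.single (X := hnT) false u⟩
      rw [map_mul, map_inv]
      change ((1 : X.Gm)⁻¹)⁻¹ * (X.n1 tT)⁻¹ * X.n1 (iT u) = _
      rw [inv_one, inv_one, one_mul]
    · -- t10 t9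
      refine ⟨rfl, tT * iT u, ?_, Hn.RP.single (X := hnT) true u⟩
      rw [map_mul]
      change ((X.n1 tT)⁻¹)⁻¹ * 1⁻¹ * X.n1 (iT u) = _
      rw [inv_inv, inv_one, mul_one]
  | @cons t t' tt l l' g e h1 h2 h3 h4 h5 h6 _ ih =>
    obtain ⟨u, hu⟩ := h5
    have h7 : X.wQ (qT t') u = l' := congrArg Prod.snd hu
    subst h7
    change rT t = rT t' at h1
    change (!kT (rT t)) = true at h3
    change qT t' = qT tt at h4
    change X.ZH t (((X.xT t)⁻¹)⁻¹ * (X.xT t')⁻¹ * X.wQ (qT t') u * g) e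
    have h8 : ∀ z, rT t' = rT tt →
        (X.xT t')⁻¹ * X.wQ (qT t') u * ((X.xT tt)⁻¹)⁻¹ = X.rN (rT t') z → False := by
      intro z hr hz
      refine h6 ⟨hr, X.rM (rT t') z, z, ?_⟩
      exact Prod.ext hz.symm rfl
    clear hu h6
    cases t <;> cases t' <;> first
      | exact absurd h1 (by decide)
      | exact absurd h3 (by decide)
      | exact absurd rfl h2
      | (cases tt <;> first
          | exact absurd h4 (by decide)
          | exact ih.elim
          | skip)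
    · -- t1 t3 t3
      obtain ⟨j, g', rfl, h9, rfl⟩ := ih
      refine ⟨j, X.fN u * g', ?_, Am.AP.cons (X := X.amA) (i := true) u ?_ h9, rfl⟩
      · rw [map_mul]
        change ((1 : X.Gm)⁻¹)⁻¹ * 1⁻¹ * X.n2 (X.fN u) * X.n2 g' = _
        rw [inv_one, inv_one, one_mul, one_mul]
      · rintro ⟨h, hc⟩
        refine h8 h rfl ?_
        change (1 : X.Gm)⁻¹ * X.n2 (X.fN u) * (1⁻¹)⁻¹ = X.n2 (jA (pw X.ν) (κA (pw X.ν) X.δ X.fixA h))
        rw [inv_one, inv_one, one_mul, mul_one, ← hc, X.commN]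
        rfl
    · -- t2 t4 t4
      obtain ⟨j, g', rfl, h9, rfl⟩ := ih
      refine ⟨j, jF (pw X.ν') X.δ X.fixA' u * g', ?_,
        Am.AP.cons (X := X.amA') (i := true) u ?_ h9, rfl⟩
      · rw [map_mul, map_mul]
        change ((1 : X.Gm)⁻¹)⁻¹ * 1⁻¹ * X.n2 (X.Ψ (jF (pw X.ν') X.δ X.fixA' u)) *
          X.n2 (X.Ψ g') = _
        rw [inv_one, inv_one, one_mul, one_mul]
      · rintro ⟨h, hc⟩
        refine h8 h rfl ?_
        change (1 : X.Gm)⁻¹ * X.n2 (X.fN' u) * (1⁻¹)⁻¹ =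
          X.n2 (X.aN' (κA (pw X.ν') X.δ X.fixA' h))
        rw [inv_one, inv_one, one_mul, mul_one, ← hc, X.commN']
        rfl
    · -- t3 t1 t1
      obtain ⟨j, g', rfl, h9, rfl⟩ := ih
      refine ⟨j, jA (pw X.ν) u * g', ?_, Am.AP.cons (X := X.amA) (i := false) u ?_ h9, rfl⟩
      · rw [map_mul]
        change ((1 : X.Gm)⁻¹)⁻¹ * 1⁻¹ * X.n2 (jA (pw X.ν) u) * X.n2 g' = _
        rw [inv_one, inv_one, one_mul, one_mul]
      · rintro ⟨h, hc⟩
        refine h8 h rfl ?_
        change (1 : X.Gm)⁻¹ * X.n2 (jA (pw X.ν) u) * (1⁻¹)⁻¹ =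
          X.n2 (jA (pw X.ν) (κA (pw X.ν) X.δ X.fixA h))
        rw [inv_one, inv_one, one_mul, mul_one, ← hc]
        rfl
    · -- t4 t2 t2
      obtain ⟨j, g', rfl, h9, rfl⟩ := ih
      refine ⟨j, jA (pw X.ν') u * g', ?_, Am.AP.cons (X := X.amA') (i := false) u ?_ h9, rfl⟩
      · rw [map_mul, map_mul]
        change ((1 : X.Gm)⁻¹)⁻¹ * 1⁻¹ * X.n2 (X.Ψ (jA (pw X.ν') u)) * X.n2 (X.Ψ g') = _
        rw [inv_one, inv_one, one_mul, one_mul]
      · rintro ⟨h, hc⟩
        refine h8 h rfl ?_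
        change (1 : X.Gm)⁻¹ * X.n2 (X.Ψ (jA (pw X.ν') u)) * (1⁻¹)⁻¹ =
          X.n2 (X.aN' (κA (pw X.ν') X.δ X.fixA' h))
        rw [inv_one, inv_one, one_mul, mul_one, ← hc]
        rfl
    · -- t9 t10 t9
      obtain ⟨rfl, g', rfl, h9⟩ := ih
      refine ⟨rfl, tT⁻¹ * iT u * g', ?_, rp_cons_f h9 fun h => absurd h (by decide)⟩
      rw [map_mul, map_mul, map_inv]
      change ((1 : X.Gm)⁻¹)⁻¹ * (X.n1 tT)⁻¹ * X.n1 (iT u) * X.n1 g' = _
      rw [inv_one, inv_one, one_mul]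
    · -- t9 t10 t10
      obtain ⟨rfl, g', rfl, h9⟩ := ih
      refine ⟨rfl, tT⁻¹ * iT u * g', ?_, rp_cons_f h9 fun _ h hc => ?_⟩
      · rw [map_mul, map_mul, map_inv]
        change ((1 : X.Gm)⁻¹)⁻¹ * (X.n1 tT)⁻¹ * X.n1 (iT u) * X.n1 g' = _
        rw [inv_one, inv_one, one_mul]
      · refine h8 h rfl ?_
        change (X.n1 tT)⁻¹ * X.n1 (iT u) * ((X.n1 tT)⁻¹)⁻¹ = X.n1 (iT (dT h))
        rw [inv_inv, ← map_inv, ← map_mul, ← map_mul, hc, relT]
    · -- t10 t9 t9
      obtain ⟨rfl, g', rfl, h9⟩ := ih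
      refine ⟨rfl, tT * iT u * g', ?_, rp_cons_t h9 fun _ h hc => ?_⟩
      · rw [map_mul, map_mul]
        change ((X.n1 tT)⁻¹)⁻¹ * 1⁻¹ * X.n1 (iT u) * X.n1 g' = _
        rw [inv_inv, inv_one, mul_one]
      · refine h8 h rfl ?_
        change (1 : X.Gm)⁻¹ * X.n1 (iT u) * (1⁻¹)⁻¹ = X.n1 (iT (dT h))
        rw [hc, inv_one, one_mul, inv_one, mul_one]
    · -- t10 t9 t10
      obtain ⟨rfl, g', rfl, h9⟩ := ih
      refine ⟨rfl, tT * iT u * g', ?_, rp_cons_t h9 fun h => absurd h (by decide)⟩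
      rw [map_mul, map_mul]
      change ((X.n1 tT)⁻¹)⁻¹ * 1⁻¹ * X.n1 (iT u) * X.n1 g' = _
      rw [inv_inv, inv_one, mul_one]

/-- sides of the horizontal edges -/
def qsd : QE → Bool
  | .q1 => true | .q2 => false | .q3 => true | .q4 => false | .q5 => true | .q6 => false

theorem hcond : X.D.swap.VCond qsd where
  fill h := X.cor.fill' h
  side {t t'} h h' := by
    change rT t = rT t' at h
    change (!kT (rT t)) = true at h'
    change qsd (qT t) = qsd (qT t')
    cases t <;> cases t' <;> first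
      | rfl
      | exact absurd h (by decide)
      | exact absurd h' (by decide)
  det {t t'} h h' h'' := by
    change rT t = rT t' at h
    change (!kT (rT t)) = false at h'
    change qsd (qT t) = qsd (qT t') at h''
    cases t <;> cases t' <;> first
      | rfl
      | exact absurd h (by decide)
      | exact absurd h' (by decide)
      | exact absurd h'' (by decide)
  forest {t g} h := by
    have h1 := X.zh h
    change X.ZH t g (qT t) at h1
    clear h
    cases t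
    · obtain ⟨j, g', rfl, h2, h3⟩ := h1
      cases j
      · exact fun h => h2.ne_one X.amA (by decide) ((map_eq_one_iff _ X.n2_injective).1 h)
      · exact absurd h3 (by decide)
    · obtain ⟨j, g', rfl, h2, h3⟩ := h1
      cases j
      · exact fun h => h2.ne_one X.amA' (by decide) ((map_eq_one_iff _ X.Ψ.injective).1
          ((map_eq_one_iff _ X.n2_injective).1 h))
      · exact absurd h3 (by decide)
    · obtain ⟨j, g', rfl, h2, h3⟩ := h1
      cases j
      · exact absurd h3 (by decide)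
      · exact fun h => h2.ne_one X.amA (by decide) ((map_eq_one_iff _ X.n2_injective).1 h)
    · obtain ⟨j, g', rfl, h2, h3⟩ := h1
      cases j
      · exact absurd h3 (by decide)
      · exact fun h => h2.ne_one X.amA' (by decide) ((map_eq_one_iff _ X.Ψ.injective).1
          ((map_eq_one_iff _ X.n2_injective).1 h))
    · exact h1.elim
    · exact h1.elim
    · exact h1.elim
    · exact h1.elim
    · obtain ⟨-, g', rfl, h2⟩ := h1
      exact fun h => h2.ne_one hnT ((map_eq_one_iff _ X.n1_injective).1 h)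
    · obtain ⟨-, g', rfl, h2⟩ := h1
      exact fun h => h2.ne_one hnT ((map_eq_one_iff _ X.n1_injective).1 h)
    · exact h1.elim
    · exact h1.elim

/-- the girth condition of a pinwheel -/
theorem girth : X.D.sys.Girth := TriData.girth X.vcond X.hcond

end Wheel

end Pool.GSP
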