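import Pool.Agent.Lib.GSP.WheelForestH

/-!
# The bricks embed in the pinwheel group
-/

namespace Pool.GSP

open Function Monoid Pool.GSE

namespace Wheel

variable {A B G0 G1 : Type} [Group A] [Group B] [Group G0] [Group G1] (X : Wheel A B G0 G1)

/-- the universal group -/
abbrev U := X.D.sys.U

/-- the vertex group -/
noncomputable def bs : X.Gm →* X.U := X.D.sys.base

theorem bs_injective : Injective X.bs := X.D.sys.base_injective X.girth

/-- letters of the vertical edges -/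
noncomputable def lP (e : PE) : X.U := X.D.sys.letter (.P e true)
/-- letters of the horizontal edges -/
noncomputable def lQ (e : QE) : X.U := X.D.sys.letter (.Q e true)
/-- letters of the junctions -/
noncomputable def lR (e : RE) : X.U := X.D.sys.letter (.R e true)

theorem bs_lP (e : PE) (u : X.EP e) :
    X.bs (X.bP e u) * X.lP e = X.lP e * X.bs (X.wP e u) :=
  X.D.sys.base_mul_letter (e := .P e true) ⟨u, rfl⟩

theorem bs_lQ (e : QE) (u : X.EQ e) :
    X.bs (X.bQ e u) * X.lQ e = X.lQ e * X.bs (X.wQ e u) :=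
  X.D.sys.base_mul_letter (e := .Q e true) ⟨u, rfl⟩

theorem tri_rel (t : TE) :
    X.lP (pT t) = X.lQ (qT t) * (X.bs (X.xT t) * (X.lR (rT t) * X.bs (X.bT t))) := by
  have h : X.D.sys.T (.P (pT t) true) 1 (.Q (qT t) true) (X.xT t) (.R (rT t) true) (X.bT t) := by
    refine ⟨t, 1, 1, 1, 1, 1, 1, one_mem _, one_mem _, one_mem _, rfl, rfl, rfl, ?_, ?_, ?_⟩
    · simp [Corner.tri]
    · simp [Corner.tri, cor]
    · simp [Corner.tri, cor]
  have := X.D.sys.letter_eq h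
  rw [map_one, one_mul] at this
  exact this

theorem tri1 : X.lP .p1 = X.lQ .q1 * X.lR .r1 := by
  have h := X.tri_rel .t1
  change _ = _ * (X.bs 1 * (_ * X.bs 1)) at h
  rwa [map_one, one_mul, mul_one] at h

theorem tri2 : X.lP .p1 = X.lQ .q2 * X.lR .r2 := by
  have h := X.tri_rel .t2
  change _ = _ * (X.bs 1 * (_ * X.bs 1)) at h
  rwa [map_one, one_mul, mul_one] at h

theorem tri3 : X.lP .p3 = X.lQ .q3 * X.lR .r1 := by
  have h := X.tri_rel .t3
  change _ = _ * (X.bs 1 * (_ * X.bs 1)) at h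
  rwa [map_one, one_mul, mul_one] at h

theorem tri4 : X.lP .p3 = X.lQ .q4 * X.lR .r2 := by
  have h := X.tri_rel .t4
  change _ = _ * (X.bs 1 * (_ * X.bs 1)) at h
  rwa [map_one, one_mul, mul_one] at h

theorem tri5 : X.lP .p4 = X.lQ .q3 * X.lR .r3 := by
  have h := X.tri_rel .t5
  change _ = _ * (X.bs 1 * (_ * X.bs 1)) at h
  rwa [map_one, one_mul, mul_one] at h

theorem tri6 : X.lP .p4 * X.bs (X.m2 tT) = X.lQ .q4 * X.lR .r3 := by
  have h := X.tri_rel .t6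
  change X.lP .p4 = X.lQ .q4 * (X.bs 1 * (X.lR .r3 * X.bs (X.m2 tT⁻¹))) at h
  rw [h, map_one, one_mul, map_inv, map_inv]
  group

theorem tri7 : X.lP .p5 = X.lQ .q3 * X.lR .r4 := by
  have h := X.tri_rel .t7
  change _ = _ * (X.bs 1 * (_ * X.bs 1)) at h
  rwa [map_one, one_mul, mul_one] at h

theorem tri8 : X.lP .p5 * X.bs (X.m2 (X.Φ tT)) = X.lQ .q4 * (X.bs (X.n2 X.w) * X.lR .r4) := by
  have h := X.tri_rel .t8
  change X.lP .p5 = X.lQ .q4 * (X.bs (X.n2 X.w) * (X.lR .r4 * X.bs (X.m2 (X.Φ tT)⁻¹))) at h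
  rw [h, map_inv, map_inv]
  group

theorem tri9 : X.lP .p4 = X.lQ .q6 * X.lR .r5 := by
  have h := X.tri_rel .t9
  change _ = _ * (X.bs 1 * (_ * X.bs 1)) at h
  rwa [map_one, one_mul, mul_one] at h

theorem tri10 : X.lP .p5 = X.lQ .q6 * (X.bs (X.n1 tT) * X.lR .r5) := by
  have h := X.tri_rel .t10
  change _ = _ * (X.bs (X.n1 tT) * (_ * X.bs 1)) at h
  rwa [map_one, mul_one] at h

theorem tri11 : X.lP .p2 = X.lQ .q5 * X.lR .r6 := by
  have h := X.tri_rel .t11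
  change _ = _ * (X.bs 1 * (_ * X.bs 1)) at h
  rwa [map_one, one_mul, mul_one] at h

theorem tri12 : X.lP .p3 = X.lQ .q6 * X.lR .r6 := by
  have h := X.tri_rel .t12
  change _ = _ * (X.bs 1 * (_ * X.bs 1)) at h
  rwa [map_one, one_mul, mul_one] at h

/-- the path from the first to the third brick -/
noncomputable def cc : X.U := X.lP .p1 * (X.lP .p3)⁻¹

/-- the path from the first to the second brick -/
noncomputable def aa : X.U := X.lP .p1 * (X.lP .p2)⁻¹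

theorem cc_eq1 : X.cc = X.lQ .q1 * (X.lQ .q3)⁻¹ := by
  rw [cc, X.tri1, X.tri3]
  group

theorem cc_eq2 : X.cc = X.lQ .q2 * (X.lQ .q4)⁻¹ := by
  rw [cc, X.tri2, X.tri4]
  group

theorem aa_eq : X.aa * X.lQ .q5 = X.cc * X.lQ .q6 := by
  rw [aa, cc, X.tri11, X.tri12]
  group

/-- the homomorphism on `G0` -/
noncomputable def h0 : G0 →* X.U := X.bs.comp X.i0

/-- the homomorphism on `G1` -/
noncomputable def h1 : G1 →* X.U := (MulAut.conj X.aa).toMonoidHom.comp (X.bs.comp X.i1)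

theorem h1_apply (z : G1) : X.h1 z = X.aa * X.bs (X.i1 z) * X.aa⁻¹ := rfl

/-- the image of `t` -/
noncomputable def tt : X.U := X.lQ .q2 * (X.lQ .q1)⁻¹

theorem eqC : X.h1 (X.p gx) = X.cc * X.bs (X.i2 (gx, 1)) * X.cc⁻¹ := by
  have e1 := X.bs_lQ .q5 (gx, 1)
  have e2 := X.bs_lQ .q6 (gx, 1)
  change X.bs (X.i1 (X.Q5 (gx, 1))) * _ = _ * X.bs (X.n1 (gx, 1)) at e1
  change X.bs (X.i2 (gx, pw gd 1)) * _ = _ * X.bs (X.n1 (κT gx, 1)) at e2
  rw [X.Q5_apply, map_one, map_one, mul_one] at e1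
  rw [map_one, κT_true] at e2
  have e3 : X.bs (X.i1 (X.p gx)) = X.lQ .q5 * X.bs (X.n1 (gx, 1)) * (X.lQ .q5)⁻¹ := by
    rw [← e1]; group
  have e4 : X.bs (X.i2 (gx, 1)) = X.lQ .q6 * X.bs (X.n1 (gx, 1)) * (X.lQ .q6)⁻¹ := by
    rw [← e2]; group
  rw [h1_apply, e3, e4]
  have e5 : X.aa = X.cc * X.lQ .q6 * (X.lQ .q5)⁻¹ := by
    rw [← X.aa_eq]; group
  rw [e5]
  group

theorem eqD : X.h1 (X.p gd) = X.cc * (X.lP .p5 * (X.lP .p4)⁻¹) * X.cc⁻¹ := by
  have e1 := X.bs_lQ .q5 (gd, 1)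
  change X.bs (X.i1 (X.Q5 (gd, 1))) * _ = _ * X.bs (X.n1 tT) at e1
  rw [X.Q5_apply, map_one, map_one, mul_one] at e1
  have e3 : X.bs (X.i1 (X.p gd)) = X.lQ .q5 * X.bs (X.n1 tT) * (X.lQ .q5)⁻¹ := by
    rw [← e1]; group
  rw [h1_apply, e3, X.tri10, X.tri9]
  have e5 : X.aa = X.cc * X.lQ .q6 * (X.lQ .q5)⁻¹ := by
    rw [← X.aa_eq]; group
  rw [e5]
  group

theorem eqB (b : F2) : X.h0 (X.g (κS X.δ' b)) = X.cc * X.bs (X.i2 (1, b)) * X.cc⁻¹ := by
  have e1 := X.bs_lP .p1 (X.fM (b, 1))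
  have e2 := X.bs_lP .p3 (b, 1)
  change X.bs (X.i0 (X.P1 (X.fM (b, 1)))) * _ = _ * X.bs (X.m1 (X.fM (b, 1))) at e1
  change X.bs (X.i2 (pw gd 1, b)) * _ = _ * X.bs (X.m1 (X.fM (b, 1))) at e2
  rw [X.P1_apply, fM, jF_apply] at e1
  simp only [map_one, mul_one] at e1
  rw [map_one] at e2
  have e3 : X.h0 (X.g (κS X.δ' b)) = X.lP .p1 * X.bs (X.m1 (X.fM (b, 1))) * (X.lP .p1)⁻¹ := by
    have e4 : X.h0 (X.g (κS X.δ' b)) * X.lP .p1 = X.lP .p1 * X.bs (X.m1 (X.fM (b, 1))) := e1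
    rw [← e4]; group
  have e4 : X.bs (X.i2 (1, b)) = X.lP .p3 * X.bs (X.m1 (X.fM (b, 1))) * (X.lP .p3)⁻¹ := by
    rw [← e2]; group
  rw [e3, e4, cc]
  group

theorem evN_eq (n : NN (pw X.ν)) :
    X.evN X.h0 X.h1 n = X.lQ .q1 * X.bs (X.n2 n) * (X.lQ .q1)⁻¹ := by
  let F : NN (pw X.ν) →* X.U := (MulAut.conj (X.lQ .q1)).toMonoidHom.comp (X.bs.comp X.n2)
  have e0 : ∀ z : EN (pw X.ν), F (jA (pw X.ν) z) = X.h0 (X.Q1 z) := by
    intro z
    have e1 := X.bs_lQ .q1 z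
    change X.h0 (X.Q1 z) * _ = _ * X.bs (X.n2 (jA (pw X.ν) z)) at e1
    change X.lQ .q1 * X.bs (X.n2 (jA (pw X.ν) z)) * (X.lQ .q1)⁻¹ = _
    rw [← e1]; group
  have e1 : F.comp SemidirectProduct.inl = sgLift (X.h0.comp X.f) (X.h1 (X.p (FreeGroup.of true))) := by
    refine sg_ext (fun a => ?_) ?_
    · rw [sgLift_inl]
      have e2 := e0 (SemidirectProduct.inl a)
      rw [X.Q1_apply] at e2
      have e3 : X.f (SemidirectProduct.inl a : EN (pw X.ν)).left *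
          X.g (pw xS (SemidirectProduct.inl a : EN (pw X.ν)).right) = X.f a := by
        simp
      rw [e3] at e2
      refine Eq.trans ?_ e2
      rw [MonoidHom.comp_apply]
      congr 1
    · rw [sgLift_x, X.eqC, X.cc_eq1]
      have e2 := X.bs_lQ .q3 (gx, 1)
      change X.bs (X.i2 (gx, pw gx 1)) * _ = _ * X.bs (X.n2 (X.fN (gx, 1))) at e2
      have e3 : X.fN (gx, 1) = SemidirectProduct.inl xS := by
        rw [fN, jF_apply]
        simp only [κS_true]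
        rfl
      rw [map_one, e3] at e2
      have e4 : X.bs (X.i2 (gx, 1)) =
          X.lQ .q3 * X.bs (X.n2 (SemidirectProduct.inl xS)) * (X.lQ .q3)⁻¹ := by
        rw [← e2]; group
      rw [e4]
      change X.lQ .q1 * X.bs (X.n2 (SemidirectProduct.inl xS)) * (X.lQ .q1)⁻¹ = _
      group
  have e2 : F (SemidirectProduct.inr (Multiplicative.ofAdd 1)) = X.h0 (X.g xS) := by
    have e3 := e0 (SemidirectProduct.inr (Multiplicative.ofAdd 1))
    rw [X.Q1_apply] at e3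
    have e4 : X.f (SemidirectProduct.inr (Multiplicative.ofAdd 1) : EN (pw X.ν)).left *
        X.g (pw xS (SemidirectProduct.inr (Multiplicative.ofAdd 1) : EN (pw X.ν)).right) =
        X.g xS := by
      simp
    rw [e4] at e3
    refine Eq.trans ?_ e3
    congr 1
    rw [jA, SemidirectProduct.map_inr]
    rfl
  have e3 : F.comp SemidirectProduct.inr = pw (X.h0 (X.g xS)) := zm_ext (by
    rw [pw_ofAdd_one]; exact e2)
  rw [evN, ← e1, ← e3]
  change F (SemidirectProduct.inl n.left) * F (SemidirectProduct.inr n.right) = F n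
  rw [← map_mul]
  congr 1
  exact (SemidirectProduct.mk_eq_inl_mul_inr n.right n.left).symm

theorem tt_eq : X.tt = X.cc * X.lP .p4 * X.bs (X.m2 (gd, 1)) * (X.lP .p4)⁻¹ * X.cc⁻¹ := by
  have e1 : X.lP .p4 * X.bs (X.m2 (gd, 1)) = X.lQ .q4 * X.lR .r3 := X.tri6
  have e2 : X.cc * X.lP .p4 * X.bs (X.m2 (gd, 1)) * (X.lP .p4)⁻¹ * X.cc⁻¹ =
      X.cc * (X.lP .p4 * X.bs (X.m2 (gd, 1))) * (X.lP .p4)⁻¹ * X.cc⁻¹ := by group
  rw [e2, e1, X.tri5, tt]
  nth_rewrite 1 [X.cc_eq2]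
  rw [X.cc_eq1]
  group

theorem evM_eq (m : F2 × Zm) : X.evM X.h0 X.h1 X.tt m =
    X.cc * X.lP .p4 * X.bs (X.m2 m) * (X.lP .p4)⁻¹ * X.cc⁻¹ := by
  let F : F2 × Zm →* X.U :=
    (MulAut.conj (X.cc * X.lP .p4)).toMonoidHom.comp (X.bs.comp X.m2)
  have hF : ∀ m, F m = X.cc * X.lP .p4 * X.bs (X.m2 m) * (X.lP .p4)⁻¹ * X.cc⁻¹ := by
    intro m
    change X.cc * X.lP .p4 * X.bs (X.m2 m) * (X.cc * X.lP .p4)⁻¹ = _
    group
  have e1 : F.comp (MonoidHom.inl F2 Zm) =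
      FreeGroup.lift (fun b => bif b then X.h0 (X.g xS) else X.tt) := by
    refine FreeGroup.ext_hom _ _ ?_
    rintro (_ | _)
    · rw [FreeGroup.lift_apply_of]
      exact (hF (gd, 1)).trans X.tt_eq.symm
    · rw [FreeGroup.lift_apply_of]
      simp only [cond_true]
      have e2 := X.bs_lP .p4 (gx, 1)
      change X.bs (X.i2 (pw gx 1, gx)) * _ = _ * X.bs (X.m2 (κT gx, 1)) at e2
      rw [map_one, κT_true] at e2
      have e3 := X.eqB gx
      rw [κS_true] at e3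
      refine (hF (gx, 1)).trans ?_
      rw [e3]
      have e4 : X.bs (X.i2 (1, gx)) = X.lP .p4 * X.bs (X.m2 (gx, 1)) * (X.lP .p4)⁻¹ := by
        rw [← e2]; group
      rw [e4]
      group
  have e3 : F.comp (MonoidHom.inr F2 Zm) = pw (X.h1 (X.p (FreeGroup.of true))) := by
    refine zm_ext ?_
    rw [pw_ofAdd_one, X.eqC]
    refine (hF (1, Multiplicative.ofAdd 1)).trans ?_
    have e2 := X.bs_lP .p4 (1, Multiplicative.ofAdd 1)
    change X.bs (X.i2 (pw gx (Multiplicative.ofAdd 1), 1)) * _ =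
      _ * X.bs (X.m2 (κT 1, Multiplicative.ofAdd 1)) at e2
    rw [pw_ofAdd_one, map_one κT] at e2
    have e4 : X.bs (X.i2 (gx, 1)) =
        X.lP .p4 * X.bs (X.m2 (1, Multiplicative.ofAdd 1)) * (X.lP .p4)⁻¹ := by
      rw [← e2]; group
    rw [e4]
    group
  rw [← hF, evM, ← e1, ← e3]
  change F (m.1, 1) * F (1, m.2) = F m
  rw [← map_mul]
  congr 1
  refine Prod.ext ?_ ?_ <;> simp

theorem satU : X.Sat X.h0 X.h1 X.tt where
  r0 := by
    have e1 := X.bs_lP .p1 (SemidirectProduct.inr (Multiplicative.ofAdd 1))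
    have e2 := X.bs_lP .p2 (SemidirectProduct.inr (Multiplicative.ofAdd 1))
    change X.bs (X.i0 (X.P1 (SemidirectProduct.inr (Multiplicative.ofAdd 1)))) * _ =
      _ * X.bs (X.m1 (SemidirectProduct.inr (Multiplicative.ofAdd 1))) at e1
    change X.bs (X.i1 (X.P2 (SemidirectProduct.inr (Multiplicative.ofAdd 1)))) * _ =
      _ * X.bs (X.m1 (jA (pw X.μ) (SemidirectProduct.inr (Multiplicative.ofAdd 1)))) at e2
    have e3 : X.P1 (SemidirectProduct.inr (Multiplicative.ofAdd 1)) = X.f X.δ := by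
      rw [P1_apply]; simp
    have e4 : X.P2 (SemidirectProduct.inr (Multiplicative.ofAdd 1)) = X.p cmF := by
      rw [P2_apply]; simp
    have e5 : jA (pw X.μ) (SemidirectProduct.inr (Multiplicative.ofAdd 1)) =
        SemidirectProduct.inr (Multiplicative.ofAdd 1) := by
      rw [jA, SemidirectProduct.map_inr]; rfl
    rw [e3] at e1
    rw [e4, e5] at e2
    rw [h1_apply]
    change X.bs (X.i0 (X.f X.δ)) = _
    have e6 : X.bs (X.i0 (X.f X.δ)) = X.lP .p1 *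
        X.bs (X.m1 (SemidirectProduct.inr (Multiplicative.ofAdd 1))) * (X.lP .p1)⁻¹ := by
      rw [← e1]; group
    have e7 : X.bs (X.i1 (X.p cmF)) = X.lP .p2 *
        X.bs (X.m1 (SemidirectProduct.inr (Multiplicative.ofAdd 1))) * (X.lP .p2)⁻¹ := by
      rw [← e2]; group
    rw [e6, e7, aa]
    group
  rB b := by
    have e1 := X.bs_lP .p1 (SemidirectProduct.inl (Coprod.inl b))
    have e2 := X.bs_lP .p2 (SemidirectProduct.inl b)
    change X.bs (X.i0 (X.P1 (SemidirectProduct.inl (Coprod.inl b)))) * _ =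
      _ * X.bs (X.m1 (SemidirectProduct.inl (Coprod.inl b))) at e1
    change X.bs (X.i1 (X.P2 (SemidirectProduct.inl b))) * _ =
      _ * X.bs (X.m1 (jA (pw X.μ) (SemidirectProduct.inl b))) at e2
    have e3 : X.P1 (SemidirectProduct.inl (Coprod.inl b)) = X.g (Coprod.inl b) := by
      rw [P1_apply]; simp
    have e4 : X.P2 (SemidirectProduct.inl b) = X.q b := by
      rw [P2_apply]; simp
    have e5 : jA (pw X.μ) (SemidirectProduct.inl b) =
        SemidirectProduct.inl (Coprod.inl b) := by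
      rw [jA, SemidirectProduct.map_inl]
    rw [e3] at e1
    rw [e4, e5] at e2
    rw [h1_apply]
    change X.bs (X.i0 (X.g (Coprod.inl b))) = _
    have e6 : X.bs (X.i0 (X.g (Coprod.inl b))) = X.lP .p1 *
        X.bs (X.m1 (SemidirectProduct.inl (Coprod.inl b))) * (X.lP .p1)⁻¹ := by
      rw [← e1]; group
    have e7 : X.bs (X.i1 (X.q b)) = X.lP .p2 *
        X.bs (X.m1 (SemidirectProduct.inl (Coprod.inl b))) * (X.lP .p2)⁻¹ := by
      rw [← e2]; group
    rw [e6, e7, aa]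
    group
  rxy := by
    have e1 := X.eqB gx
    rw [κS_true] at e1
    rw [X.eqC, e1]
    have e2 : X.bs (X.i2 (gx, 1)) * X.bs (X.i2 (1, gx)) =
        X.bs (X.i2 (1, gx)) * X.bs (X.i2 (gx, 1)) := by
      rw [← map_mul, ← map_mul, ← map_mul, ← map_mul]
      congr 2
    calc X.cc * X.bs (X.i2 (gx, 1)) * X.cc⁻¹ * (X.cc * X.bs (X.i2 (1, gx)) * X.cc⁻¹)
        = X.cc * (X.bs (X.i2 (gx, 1)) * X.bs (X.i2 (1, gx))) * X.cc⁻¹ := by group
      _ = _ := by rw [e2]; group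
  ry := by
    have e1 : X.h0 (X.g xS) = X.evM X.h0 X.h1 X.tt (gx, 1) := by
      rw [evM]
      simp
    have e2 : X.tt = X.evM X.h0 X.h1 X.tt (gd, 1) := by
      rw [evM]
      simp
    have e3 := X.eqB dy
    rw [κS_dy] at e3
    have e4 := X.bs_lP .p4 (dy, 1)
    change X.bs (X.i2 (pw gx 1, dy)) * _ = _ * X.bs (X.m2 (κT dy, 1)) at e4
    rw [map_one] at e4
    have e5 : X.bs (X.i2 (1, dy)) = X.lP .p4 * X.bs (X.m2 (κT dy, 1)) * (X.lP .p4)⁻¹ := by
      rw [← e4]; group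
    have e6 : X.bs (X.m2 (gd, 1)) * X.bs (X.m2 (gx, 1)) =
        X.bs (X.m2 (κT dy, 1)) * X.bs (X.m2 (gd, 1)) := by
      rw [← map_mul, ← map_mul, ← map_mul, ← map_mul, κT_dy]
      congr 2
      refine Prod.ext ?_ ?_
      · simp only [Prod.fst_mul]
        group
      · simp
    have e1' := e1.trans (X.evM_eq _)
    rw [e3, e5, e1', X.tt_eq]
    calc X.cc * X.lP .p4 * X.bs (X.m2 (gd, 1)) * (X.lP .p4)⁻¹ * X.cc⁻¹ *
          (X.cc * X.lP .p4 * X.bs (X.m2 (gx, 1)) * (X.lP .p4)⁻¹ * X.cc⁻¹)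
        = X.cc * X.lP .p4 * (X.bs (X.m2 (gd, 1)) * X.bs (X.m2 (gx, 1))) * (X.lP .p4)⁻¹ *
          X.cc⁻¹ := by group
      _ = _ := by rw [e6]; group
  rx := by
    have e1 : X.h1 (X.p (FreeGroup.of true)) =
        X.evM X.h0 X.h1 X.tt (1, Multiplicative.ofAdd 1) := by
      rw [evM]
      simp
    have e6 : X.bs (X.m2 (1, Multiplicative.ofAdd 1)) * X.bs (X.m2 (gd, 1)) =
        X.bs (X.m2 (gd, 1)) * X.bs (X.m2 (1, Multiplicative.ofAdd 1)) := by
      rw [← map_mul, ← map_mul, ← map_mul, ← map_mul]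
      congr 2
    rw [e1, X.evM_eq, X.tt_eq]
    calc X.cc * X.lP .p4 * X.bs (X.m2 (1, Multiplicative.ofAdd 1)) * (X.lP .p4)⁻¹ * X.cc⁻¹ *
          (X.cc * X.lP .p4 * X.bs (X.m2 (gd, 1)) * (X.lP .p4)⁻¹ * X.cc⁻¹)
        = X.cc * X.lP .p4 * (X.bs (X.m2 (1, Multiplicative.ofAdd 1)) * X.bs (X.m2 (gd, 1))) *
          (X.lP .p4)⁻¹ * X.cc⁻¹ := by group
      _ = _ := by rw [e6]; group
  rA a := by
    have e1 := X.bs_lQ .q2 (SemidirectProduct.inl a)
    change X.bs (X.i0 (X.Q2 (SemidirectProduct.inl a))) * _ =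
      _ * X.bs (X.n2 (X.Ψ (jA (pw X.ν') (SemidirectProduct.inl a)))) at e1
    have e2 : X.Q2 (SemidirectProduct.inl a) = X.f' a := by
      rw [Q2_apply]; simp
    have e3 : jA (pw X.ν') (SemidirectProduct.inl a) = SemidirectProduct.inl (Coprod.inl a) := by
      rw [jA, SemidirectProduct.map_inl]
    rw [e2, e3] at e1
    rw [X.evN_eq, tt]
    change X.bs (X.i0 (X.f' a)) * _ = _
    rw [← mul_assoc, e1]
    group
  rs := by
    have e1 := X.eqB gx
    rw [κS_true] at e1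
    have e2 := X.bs_lP .p5 (gx, 1)
    change X.bs (X.i2 (pw dy 1, gx)) * _ = _ * X.bs (X.m2 (X.Φ (κT gx, 1))) at e2
    rw [map_one, κT_true] at e2
    rw [e1, X.eqD, X.evM_eq]
    calc X.cc * X.bs (X.i2 (1, gx)) * X.cc⁻¹ * (X.cc * (X.lP .p5 * (X.lP .p4)⁻¹) * X.cc⁻¹)
        = X.cc * (X.bs (X.i2 (1, gx)) * X.lP .p5) * (X.lP .p4)⁻¹ * X.cc⁻¹ := by group
      _ = _ := by rw [e2]; group
  rt := by
    have e1 : X.lQ .q4 * (X.bs (X.n2 X.w) * X.lR .r4) = X.lP .p5 * X.bs (X.m2 (X.Φ (gd, 1))) :=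
      X.tri8.symm
    rw [X.evN_eq, X.eqD, X.evM_eq, tt]
    calc X.lQ .q2 * (X.lQ .q1)⁻¹ * (X.lQ .q1 * X.bs (X.n2 X.w) * (X.lQ .q1)⁻¹) *
          (X.cc * (X.lP .p5 * (X.lP .p4)⁻¹) * X.cc⁻¹)
        = X.lQ .q2 * X.bs (X.n2 X.w) * ((X.lQ .q1)⁻¹ * X.cc * X.lP .p5) * (X.lP .p4)⁻¹ *
          X.cc⁻¹ := by group
      _ = X.lQ .q2 * X.bs (X.n2 X.w) * X.lR .r4 * (X.lP .p4)⁻¹ * X.cc⁻¹ := by
          have e2 : (X.lQ .q1)⁻¹ * X.cc * X.lP .p5 = X.lR .r4 := by
            rw [X.cc_eq1, X.tri7]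
            group
          rw [e2]
      _ = X.lQ .q2 * (X.lQ .q4)⁻¹ * (X.lQ .q4 * (X.bs (X.n2 X.w) * X.lR .r4)) *
          (X.lP .p4)⁻¹ * X.cc⁻¹ := by group
      _ = _ := by
          rw [e1, ← X.cc_eq2]
          group

/-- the homomorphism to the universal group -/
noncomputable def toU : X.Pin →* X.U := lift X.satU

/-- the first brick embeds -/
theorem of0_injective : Injective X.of0 := by
  intro a b h
  have h1 := congrArg X.toU h
  rw [toU, lift_of0, lift_of0] at h1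
  exact X.i0_injective (X.bs_injective h1)

/-- the second brick embeds -/
theorem of1_injective : Injective X.of1 := by
  intro a b h
  have h1 := congrArg X.toU h
  rw [toU, lift_of1, lift_of1, h1_apply, h1_apply] at h1
  exact X.i1_injective (X.bs_injective (mul_left_cancel (mul_right_cancel h1)))

/-- the pinwheel group is infinite -/
theorem infinite : Infinite X.Pin := by
  have h1 : Injective (X.of0.comp (X.g.comp (pw xS))) := by
    intro a b h
    have h2 : X.g (pw xS a) = X.g (pw xS b) := X.of0_injective h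
    have h3 : X.f 1 * X.g (pw xS a) = X.f 1 * X.g (pw xS b) := by rw [h2]
    exact pw_xS_injective (X.ind_eq h3).2
  have : Infinite Zm := inferInstance
  exact Infinite.of_injective _ h1

end Wheel

end Pool.GSP
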