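import Pool.Agent.Lib.GSP.Hn

/-!
# The edge groups at the bricks of a pinwheel
-/

namespace Pool.GSP

open Function Monoid

theorem act_pw {N H : Type*} [Group N] [Group H] (φ : Zm →* MulAut N) (fn : N →* H) (h : H)
    (hc : ∀ x, fn (φ (Multiplicative.ofAdd 1) x) = h * fn x * h⁻¹) (m : Zm) (x : N) :
    fn (φ m x) = pw h m * fn x * (pw h m)⁻¹ := by
  obtain ⟨k, rfl⟩ : ∃ k : ℤ, Multiplicative.ofAdd k = m := ⟨m.toAdd, rfl⟩
  induction k using Int.induction_on generalizing x with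
  | zero =>
    rw [ofAdd_zero, map_one, map_one]
    simp
  | succ k ih =>
    rw [ofAdd_add, map_mul, map_mul, MulAut.mul_apply, ih, hc, pw_ofAdd_one]
    group
  | pred k ih =>
    have h1 : fn ((φ (Multiplicative.ofAdd 1))⁻¹ x) = h⁻¹ * fn x * h := by
      have h2 := hc ((φ (Multiplicative.ofAdd 1))⁻¹ x)
      rw [← MulAut.mul_apply, mul_inv_cancel, MulAut.one_apply] at h2
      rw [h2]
      group
    rw [show Multiplicative.ofAdd (-(k : ℤ) - 1) = Multiplicative.ofAdd (-(k : ℤ)) *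
      (Multiplicative.ofAdd 1)⁻¹ from rfl, map_mul, map_inv, MulAut.mul_apply, ih, h1, map_mul,
      map_inv, pw_ofAdd_one]
    group

/-- homomorphisms out of `N ⋊ Z` -/
def sdLift {N H : Type*} [Group N] [Group H] (φ : Zm →* MulAut N) (fn : N →* H) (h : H)
    (hc : ∀ x, fn (φ (Multiplicative.ofAdd 1) x) = h * fn x * h⁻¹) : N ⋊[φ] Zm →* H :=
  SemidirectProduct.lift fn (pw h) (by
    intro m
    ext x
    simp only [MonoidHom.comp_apply, MulEquiv.toMonoidHom_eq_coe, MonoidHom.coe_coe,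
      MulAut.conj_apply]
    exact act_pw φ fn h hc m x)

theorem sdLift_apply {N H : Type*} [Group N] [Group H] (φ : Zm →* MulAut N) (fn : N →* H) (h : H)
    (hc : ∀ x, fn (φ (Multiplicative.ofAdd 1) x) = h * fn x * h⁻¹) (z : N ⋊[φ] Zm) :
    sdLift φ fn h hc z = fn z.left * pw h z.right := rfl

theorem sdLift_apply' {N H : Type*} [Group N] [Group H] (φ : Zm →* MulAut N) (fn : N →* H) (h : H)
    (hc : ∀ x, fn (φ (Multiplicative.ofAdd 1) x) = h * fn x * h⁻¹) (z : N ⋊[φ] Zm) :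
    sdLift φ fn h hc z = pw h z.right * fn (φ z.right⁻¹ z.left) := by
  rw [sdLift_apply, act_pw φ fn h hc, map_inv]
  group

theorem pw_xS_injective {B : Type} [Group B] : Injective (pw (xS : Sg B)) :=
  pw_inj_of (sgLift 1 (Multiplicative.ofAdd 1)) (sgLift_x _ _)

theorem pw_bx_injective {B : Type} [Group B] (b : B) :
    Injective (pw (Coprod.inl b * xS : Sg B)) :=
  pw_inj_of (sgLift 1 (Multiplicative.ofAdd 1)) (by rw [map_mul, sgLift_inl, sgLift_x]; simp)

theorem κT_injective : Injective κT := by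
  intro a b h
  have h1 : iT (a, 1) = iT (b, 1) := by
    rw [iT_apply, iT_apply]
    simp only [h]
  exact congrArg Prod.fst (hnT.inc_injective h1)

theorem κT_false' : κT (FreeGroup.of false) = cmF := κT_false

theorem pw_cmF_injective : Injective (pw cmF) := by
  intro a b h
  rw [← κT_false', ← map_pw, ← map_pw] at h
  exact pw_of_injective false (κT_injective h)

theorem κS_pw_true {B : Type} [Group B] (δ : B) (n : Zm) :
    κS δ (pw (FreeGroup.of true) n) = pw xS n := by rw [map_pw, κS_true]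

theorem κS_dy {B : Type} [Group B] (δ : B) : κS δ dy = Coprod.inl δ * xS := by
  rw [dy, map_mul, κS_true, κS_false]

theorem κS_pw_dy {B : Type} [Group B] (δ : B) (n : Zm) :
    κS δ (pw dy n) = pw (Coprod.inl δ * xS) n := by rw [map_pw, κS_dy]

theorem fix_pw {B : Type*} [Group B] {μ : MulAut B} {b : B} (h : μ b = b) (n : Zm) :
    pw μ n b = b := by
  have h1 : μ ∈ MulAction.stabilizer (MulAut B) b := h
  exact zpow_mem h1 n.toAdd

namespace Wheel

variable {A B G0 G1 : Type} [Group A] [Group B] [Group G0] [Group G1] (X : Wheel A B G0 G1)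

theorem fixB (n : Zm) : pw X.μ n X.δ' = X.δ' := fix_pw X.hμ n
theorem fixA (n : Zm) : pw X.ν n X.δ = X.δ := fix_pw X.hν n
theorem fixA' (n : Zm) : pw X.ν' n X.δ = X.δ := fix_pw X.hν' n

theorem ind_eq {a a' : A} {b b' : Sg B} (h : X.f a * X.g b = X.f a' * X.g b') :
    a = a' ∧ b = b' := by
  have h1 : ((a, b) : A × Sg B) = (a', b') := X.ind h
  exact ⟨congrArg Prod.fst h1, congrArg Prod.snd h1⟩

theorem ind_eq' {a a' : A} {b b' : Sg B} (h : X.f' a * X.g b = X.f' a' * X.g b') :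
    a = a' ∧ b = b' := by
  have h1 : ((a, b) : A × Sg B) = (a', b') := X.ind' h
  exact ⟨congrArg Prod.fst h1, congrArg Prod.snd h1⟩

theorem ind1_eq {a a' : F2} {b b' : B} (h : X.p a * X.q b = X.p a' * X.q b') :
    a = a' ∧ b = b' := by
  have h1 : ((a, b) : F2 × B) = (a', b') := X.ind1 h
  exact ⟨congrArg Prod.fst h1, congrArg Prod.snd h1⟩

/-- `M1 → G0` -/
def P1 : NN (pw X.μ) →* G0 := sdLift (extA (pw X.μ)) X.g (X.f X.δ) (by
  intro b
  have h : X.g.comp (extA (pw X.μ) (Multiplicative.ofAdd 1)).toMonoidHom =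
      (MulAut.conj (X.f X.δ)).toMonoidHom.comp X.g := by
    refine sg_ext (fun b => ?_) ?_
    · simp only [MonoidHom.comp_apply, MulEquiv.toMonoidHom_eq_coe, MonoidHom.coe_coe, extA_inl,
        pw_ofAdd_one, MulAut.conj_apply]
      exact (X.actB b).symm
    · simp only [MonoidHom.comp_apply, MulEquiv.toMonoidHom_eq_coe, MonoidHom.coe_coe, extA_x,
        MulAut.conj_apply]
      rw [X.actY]
      group
  exact DFunLike.congr_fun h b)

theorem P1_apply (z : NN (pw X.μ)) : X.P1 z = X.g z.left * pw (X.f X.δ) z.right := rfl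

theorem P1_apply' (z : NN (pw X.μ)) :
    X.P1 z = X.f (pw X.δ z.right) * X.g (extA (pw X.μ) z.right⁻¹ z.left) := by
  rw [map_pw]
  exact sdLift_apply' _ _ _ _ z

theorem P1_injective : Injective X.P1 := by
  intro z z' h
  rw [P1_apply', P1_apply'] at h
  obtain ⟨h1, h2⟩ := X.ind_eq h
  have h3 := X.hδ h1
  rw [h3] at h2
  have h4 := (extA (pw X.μ) z'.right⁻¹).injective h2
  exact SemidirectProduct.ext h4 h3

/-- `B ⋊ Z → G1` -/
def P2 : EN (pw X.μ) →* G1 := sdLift (pw X.μ) X.q (X.p cmF) (by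
  intro b
  rw [pw_ofAdd_one]
  exact (X.act1 b).symm)

theorem P2_apply (z : EN (pw X.μ)) : X.P2 z = X.q z.left * pw (X.p cmF) z.right := rfl

theorem P2_apply' (z : EN (pw X.μ)) :
    X.P2 z = X.p (pw cmF z.right) * X.q (pw X.μ z.right⁻¹ z.left) := by
  rw [map_pw]
  exact sdLift_apply' _ _ _ _ z

theorem P2_injective : Injective X.P2 := by
  intro z z' h
  rw [P2_apply', P2_apply'] at h
  obtain ⟨h1, h2⟩ := X.ind1_eq h
  have h3 := pw_cmF_injective h1
  rw [h3] at h2
  have h4 := (pw X.μ z'.right⁻¹).injective h2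
  exact SemidirectProduct.ext h4 h3

/-- `A ⋊ Z → G0` -/
def Q1 : EN (pw X.ν) →* G0 := sdLift (pw X.ν) X.f (X.g xS) (by
  intro a
  rw [pw_ofAdd_one]
  exact (X.actA a).symm)

theorem Q1_apply (z : EN (pw X.ν)) : X.Q1 z = X.f z.left * X.g (pw xS z.right) := by
  rw [map_pw]
  rfl

theorem Q1_injective : Injective X.Q1 := by
  intro z z' h
  rw [Q1_apply, Q1_apply] at h
  obtain ⟨h1, h2⟩ := X.ind_eq h
  exact SemidirectProduct.ext h1 (pw_xS_injective h2)

/-- `A ⋊ Z → G0`, the other side -/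
def Q2 : EN (pw X.ν') →* G0 := sdLift (pw X.ν') X.f' (X.g (Coprod.inl X.δ' * xS)) (by
  intro a
  rw [pw_ofAdd_one]
  exact (X.actA' a).symm)

theorem Q2_apply (z : EN (pw X.ν')) :
    X.Q2 z = X.f' z.left * X.g (pw (Coprod.inl X.δ' * xS) z.right) := by
  rw [map_pw]
  rfl

theorem Q2_injective : Injective X.Q2 := by
  intro z z' h
  rw [Q2_apply, Q2_apply] at h
  obtain ⟨h1, h2⟩ := X.ind_eq' h
  exact SemidirectProduct.ext h1 (pw_bx_injective _ h2)

/-- `N1 → G1` -/
def Q5 : F2 × Zm →* G1 := X.p.noncommCoprod (pw (X.q X.δ')) (fun a n => by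
  have h : Commute (X.q X.δ') (X.p a) := X.act1' a
  exact (h.zpow_left n.toAdd).symm)

theorem Q5_apply (z : F2 × Zm) : X.Q5 z = X.p z.1 * X.q (pw X.δ' z.2) := by
  rw [map_pw]
  rfl

theorem Q5_injective : Injective X.Q5 := by
  intro z z' h
  rw [Q5_apply, Q5_apply] at h
  obtain ⟨h1, h2⟩ := X.ind1_eq h
  exact Prod.ext h1 (X.hδ' h2)

/-- the corner of `c1 × d2` at the first brick -/
theorem inter1 {u : NN (pw X.μ)} {v : EN (pw X.ν)} (h : X.P1 u = X.Q1 v) :
    ∃ z : Zm × Zm, u = jF (pw X.μ) X.δ' X.fixB (pw (FreeGroup.of true) z.2, z.1) ∧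
      v = κA (pw X.ν) X.δ X.fixA z := by
  rw [P1_apply', Q1_apply] at h
  obtain ⟨h1, h2⟩ := X.ind_eq h
  refine ⟨(u.right, v.right), ?_, ?_⟩
  · refine SemidirectProduct.ext ?_ rfl
    rw [jF_apply]
    simp only
    rw [κS_pw_true]
    have h3 : u.left = extA (pw X.μ) u.right (extA (pw X.μ) u.right⁻¹ u.left) := by
      rw [← MulAut.mul_apply, ← map_mul, mul_inv_cancel, map_one, MulAut.one_apply]
    rw [h3, h2]
    have h4 := map_pw (extA (pw X.μ) u.right).toMonoidHom xS v.right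
    simp only [MulEquiv.toMonoidHom_eq_coe, MonoidHom.coe_coe, extA_x] at h4
    exact h4
  · exact SemidirectProduct.ext h1.symm rfl

theorem inter2 {u : NN (pw X.μ)} {v : EN (pw X.ν')} (h : X.P1 u = X.Q2 v) :
    ∃ z : Zm × Zm, u = jF (pw X.μ) X.δ' X.fixB (pw dy z.2, z.1) ∧
      v = κA (pw X.ν') X.δ X.fixA' z := by
  have h0 : X.f' (pw X.δ u.right) = X.f (pw X.δ u.right) := by
    rw [map_pw, map_pw, X.ff']
  rw [P1_apply', Q2_apply, ← h0] at h
  obtain ⟨h1, h2⟩ := X.ind_eq' h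
  refine ⟨(u.right, v.right), ?_, ?_⟩
  · refine SemidirectProduct.ext ?_ rfl
    rw [jF_apply]
    simp only
    have h3 : u.left = extA (pw X.μ) u.right (extA (pw X.μ) u.right⁻¹ u.left) := by
      rw [← MulAut.mul_apply, ← map_mul, mul_inv_cancel, map_one, MulAut.one_apply]
    rw [h3, h2, ← κS_pw_dy, extA_κS _ _ X.fixB]
  · exact SemidirectProduct.ext h1.symm rfl

theorem inter11 {u : EN (pw X.μ)} {v : F2 × Zm} (h : X.P2 u = X.Q5 v) :
    ∃ z : Zm × Zm, u = κA (pw X.μ) X.δ' X.fixB (z.2, z.1) ∧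
      v = iT (pw (FreeGroup.of false) z.1, z.2) := by
  rw [P2_apply', Q5_apply] at h
  obtain ⟨h1, h2⟩ := X.ind1_eq h
  refine ⟨(u.right, v.2), ?_, ?_⟩
  · refine SemidirectProduct.ext ?_ rfl
    rw [κA_apply]
    simp only
    have h3 : u.left = pw X.μ u.right (pw X.μ u.right⁻¹ u.left) := by
      rw [← MulAut.mul_apply, ← map_mul, mul_inv_cancel, map_one, MulAut.one_apply]
    rw [h3, h2]
    have h4 := map_pw (pw X.μ u.right).toMonoidHom X.δ' v.2
    simp only [MulEquiv.toMonoidHom_eq_coe, MonoidHom.coe_coe, X.fixB] at h4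
    exact h4
  · refine Prod.ext ?_ rfl
    rw [iT_apply]
    simp only
    rw [map_pw, κT_false', h1]

end Wheel

end Pool.GSP
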