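import Pool.Agent.Lib.GSP.WheelHom
import Pool.Agent.Lib.TPR.Row

/-!
# A row and a column of a pinwheel

The row through the third brick: `A` (first brick), the wall of `δ`, the letters `x` and `s` (third
brick, crossing the second vertical wall).  The column: `B` (second brick), `y` and `t`.
-/

namespace Pool.GSP

open Function Monoid Pool.GSE Pool.TPR

/-- homomorphisms out of the free group of rank two -/
def fr2 {H : Type*} [Group H] (α β : H) : F2 →* H := FreeGroup.lift (fun b => bif b then α else β)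

theorem fr2_gx {H : Type*} [Group H] (α β : H) : fr2 α β gx = α := by simp [fr2]
theorem fr2_gd {H : Type*} [Group H] (α β : H) : fr2 α β gd = β := by simp [fr2]

theorem fr2_ext {H : Type*} [Group H] {f g : F2 →* H} (h1 : f gx = g gx) (h2 : f gd = g gd) :
    f = g := by
  refine FreeGroup.ext_hom _ _ ?_
  rintro (_ | _)
  · exact h2
  · exact h1

theorem pw_conj {G : Type*} [Group G] (g h : G) (n : Zm) :
    pw (g * h * g⁻¹) n = g * pw h n * g⁻¹ := by
  have h1 := map_pw (MulAut.conj g).toMonoidHom h n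
  simp only [MulEquiv.toMonoidHom_eq_coe, MonoidHom.coe_coe, MulAut.conj_apply] at h1
  exact h1.symm

/-- the brick at the side `ε` of the wall `v` of the row; `false` is the brick of `A`, `true` the
third brick -/
def srcR : Bool → Bool → Bool
  | false, false => true
  | false, true => false
  | true, _ => true

/-- the edges of the row -/
def pR : Bool → Bool → PE
  | false, false => .p3
  | false, true => .p1
  | true, false => .p5
  | true, true => .p4

/-- the edges of the column -/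
def qR : Bool → Bool → QE
  | false, false => .q6
  | false, true => .q5
  | true, false => .q4
  | true, true => .q3

/-- the groups of the bricks in the row -/
def WR (A : Type) : Bool → Type
  | false => A
  | true => F2

instance (A : Type) [Group A] : ∀ t, Group (WR A t)
  | false => inferInstanceAs (Group A)
  | true => inferInstanceAs (Group F2)

/-- homomorphisms of the groups of the two bricks -/
def eR {K : Type*} {A : Type} [Group A] [Group K] (ι : A →* K) (κ : F2 →* K) : ∀ t, WR A t →* K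
  | false => ι
  | true => κ

/-- the letters of the two walls -/
def kR {K : Type*} [Group K] (s : K) : Bool → K
  | false => 1
  | true => s

section alg

variable {A : Type} {K : Type*} [Group A] [Group K] {ι : A →* K} {x s : K} {δ : A}

theorem fr2_pw_gd (n : Zm) : fr2 x (ι δ) (pw gd n) = ι (pw δ n) := by
  rw [map_pw, fr2_gd, map_pw]

theorem fr2_pw_dy (h : ι δ = s * x * s⁻¹ * x⁻¹) (n : Zm) :
    fr2 x (ι δ) (pw dy n) * s = s * fr2 x (ι δ) (pw gx n) := by
  have h1 : fr2 x (ι δ) dy = s * x * s⁻¹ := by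
    rw [dy, map_mul]
    change fr2 x (ι δ) gd * fr2 x (ι δ) gx = _
    rw [fr2_gx, fr2_gd, h]
    group
  rw [map_pw, map_pw, h1, fr2_gx, pw_conj]
  group

end alg

namespace Wheel

variable {A B G0 G1 : Type} [Group A] [Group B] [Group G0] [Group G1] (X : Wheel A B G0 G1)

theorem mem_LP {e : PE} {z : X.Gm × X.Gm} (h : z ∈ X.D.LP e) : ∃ u, X.bP e u = z.1 := by
  obtain ⟨u, rfl⟩ := h
  exact ⟨u, rfl⟩

theorem mem_LQ {e : QE} {z : X.Gm × X.Gm} (h : z ∈ X.D.LQ e) : ∃ u, X.bQ e u = z.1 := by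
  obtain ⟨u, rfl⟩ := h
  exact ⟨u, rfl⟩

theorem toU_of0 (z : G0) : X.toU (X.of0 z) = X.bs (X.i0 z) := lift_of0 _ z

theorem toU_of1 (z : G1) : X.toU (X.of1 z) = X.aa * X.bs (X.i1 z) * X.aa⁻¹ := lift_of1 _ z

theorem toU_t : X.toU X.t = X.tt := lift_t _

theorem toU_x : X.toU (X.of1 (X.p gx)) = X.cc * X.bs (X.i2 (gx, 1)) * X.cc⁻¹ :=
  (X.toU_of1 _).trans X.eqC

theorem toU_s : X.toU (X.of1 (X.p gd)) = X.cc * (X.lP .p5 * (X.lP .p4)⁻¹) * X.cc⁻¹ :=
  (X.toU_of1 _).trans X.eqD

theorem toU_δ : X.toU (X.of0 (X.f X.δ)) = X.cc * X.bs (X.i2 (gd, 1)) * X.cc⁻¹ := by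
  have e1 := X.bs_lP .p1 (SemidirectProduct.inr (Multiplicative.ofAdd 1))
  have e2 := X.bs_lP .p3 (1, Multiplicative.ofAdd 1)
  change X.bs (X.i0 (X.P1 (SemidirectProduct.inr (Multiplicative.ofAdd 1)))) * _ =
    _ * X.bs (X.m1 (SemidirectProduct.inr (Multiplicative.ofAdd 1))) at e1
  change X.bs (X.i2 (pw gd (Multiplicative.ofAdd 1), 1)) * _ =
    _ * X.bs (X.m1 (X.fM (1, Multiplicative.ofAdd 1))) at e2
  have e3 : X.P1 (SemidirectProduct.inr (Multiplicative.ofAdd 1)) = X.f X.δ := by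
    rw [P1_apply]; simp
  have e4 : X.fM (1, Multiplicative.ofAdd 1) =
      SemidirectProduct.inr (Multiplicative.ofAdd 1) := by
    rw [fM, jF_apply, map_one]
    rfl
  rw [e3] at e1
  rw [e4, pw_ofAdd_one] at e2
  have e5 : X.bs (X.i2 (gd, 1)) = X.lP .p3 *
      X.bs (X.m1 (SemidirectProduct.inr (Multiplicative.ofAdd 1))) * (X.lP .p3)⁻¹ := by
    rw [← e2]; group
  have e6 : X.bs (X.i0 (X.f X.δ)) = X.lP .p1 *
      X.bs (X.m1 (SemidirectProduct.inr (Multiplicative.ofAdd 1))) * (X.lP .p1)⁻¹ := by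
    rw [← e1]; group
  rw [toU_of0, e5, e6, cc]
  group

theorem toU_B (b : B) : X.toU (X.of1 (X.q b)) = X.toU (X.of0 (X.g (Coprod.inl b))) := by
  rw [X.sat.rB]

theorem toU_κ (b : F2) : X.toU (X.of0 (X.g (κS X.δ' b))) =
    X.cc * X.bs (X.i2 (1, b)) * X.cc⁻¹ := (X.toU_of0 _).trans (X.eqB b)

theorem toU_t' : X.toU X.t = X.cc * (X.lQ .q4 * (X.lQ .q3)⁻¹) * X.cc⁻¹ := by
  rw [toU_t, tt]
  nth_rewrite 1 [X.cc_eq2]
  rw [X.cc_eq1]
  group

/-- **The row** through the third brick: `K` is a group with a homomorphism `ι` of `A` and elements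
`x`, `s` such that `ι δ = [s, x]`, mapped to the pinwheel group by `F`. -/
noncomputable def row {K : Type*} [Group K] (ι : A →* K) (x s : K)
    (hδ : ι X.δ = s * x * s⁻¹ * x⁻¹) (F : K →* X.Pin) (hF : ∀ a, F (ι a) = X.of0 (X.f a))
    (hx : F x = X.of1 (X.p gx)) (hs : F s = X.of1 (X.p gd)) :
    RowK X.D psd Bool Bool K where
  inc v ε t := srcR v ε = t
  uniq h h' := h.symm.trans h'
  p {v ε _} _ := pR v ε
  psd_ne {v _ _} _ _ := by cases v <;> decide
  p_inj {v ε v' ε' _} _ _ h := by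
    rcases v with _ | _ <;> rcases ε with _ | _ <;> rcases v' with _ | _ <;>
      rcases ε' with _ | _ <;> first
      | exact ⟨rfl, rfl⟩
      | exact absurd h (by decide)
  W := WR A
  u := eR (X.i0.comp X.f) (X.i2.comp (MonoidHom.inl F2 F2))
  m _ := 1
  e := eR ι (fr2 x (ι X.δ))
  k := kR s
  F := X.toU.comp F
  q := fun t => if t then X.cc else 1
  cross {v ε t t'} i i' w l h := by
    obtain ⟨u, hu⟩ := X.mem_LP h
    subst i i'
    rcases v with _ | _ <;> rcases ε with _ | _
    · -- first wall, from the third brick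
      have h1 : s2 gd u = ((w : F2), (1 : F2)) := X.i2_injective hu
      have h2 : pw gd (u : F2 × Zm).2 = (w : F2) := congrArg Prod.fst h1
      refine ⟨pw X.δ (u : F2 × Zm).2, ?_⟩
      change fr2 x (ι X.δ) w * 1 = 1 * ι _
      rw [mul_one, one_mul, ← h2, fr2_pw_gd]
    · -- first wall, from the first brick
      have h1 : X.P1 u = X.f w := X.i0_injective hu
      rw [P1_apply'] at h1
      have h2 : X.f (pw X.δ (u : NN (pw X.μ)).right) *
          X.g (extA (pw X.μ) (u : NN (pw X.μ)).right⁻¹ (u : NN (pw X.μ)).left) =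
          X.f w * X.g 1 := by rw [map_one, mul_one]; exact h1
      obtain ⟨h3, -⟩ := X.ind_eq h2
      refine ⟨pw gd (u : NN (pw X.μ)).right, ?_⟩
      change ι w * 1⁻¹ = 1⁻¹ * fr2 x (ι X.δ) _
      rw [inv_one, mul_one, one_mul, fr2_pw_gd, h3]
    · -- second wall
      have h1 : s2 dy u = ((w : F2), (1 : F2)) := X.i2_injective hu
      have h2 : pw dy (u : F2 × Zm).2 = (w : F2) := congrArg Prod.fst h1
      refine ⟨pw gx (u : F2 × Zm).2, ?_⟩
      change fr2 x (ι X.δ) w * s = s * fr2 x (ι X.δ) _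
      rw [← h2, fr2_pw_dy hδ]
    · have h1 : s2 gx u = ((w : F2), (1 : F2)) := X.i2_injective hu
      have h2 : pw gx (u : F2 × Zm).2 = (w : F2) := congrArg Prod.fst h1
      refine ⟨pw dy (u : F2 × Zm).2, ?_⟩
      change fr2 x (ι X.δ) w * s⁻¹ = s⁻¹ * fr2 x (ι X.δ) _
      rw [← h2, mul_inv_eq_iff_eq_mul, mul_assoc, fr2_pw_dy hδ, inv_mul_cancel_left]
  F_e t w := by
    rcases t with _ | _
    · change X.toU (F (ι w)) = 1 * X.bs (X.i0 (X.f w)) * 1⁻¹
      rw [hF, toU_of0, one_mul, inv_one, mul_one]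
    · change X.toU (F (fr2 x (ι X.δ) w)) = X.cc * X.bs (X.i2 (w, 1)) * X.cc⁻¹
      have h : (X.toU.comp F).comp (fr2 x (ι X.δ)) = (MulAut.conj X.cc).toMonoidHom.comp
          (X.bs.comp (X.i2.comp (MonoidHom.inl F2 F2))) := by
        refine fr2_ext ?_ ?_
        · change X.toU (F (fr2 x (ι X.δ) gx)) = _
          rw [fr2_gx, hx]
          exact X.toU_x
        · change X.toU (F (fr2 x (ι X.δ) gd)) = _
          rw [fr2_gd, hF]
          exact X.toU_δ
      exact DFunLike.congr_fun h w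
  F_k {v t t'} i i' := by
    subst i i'
    rcases v with _ | _
    · change X.toU (F 1) = X.cc * (X.lP .p3 * X.bs 1 * (X.lP .p1)⁻¹) * 1⁻¹
      rw [map_one, map_one, map_one, cc]
      group
    · change X.toU (F s) = X.cc * (X.lP .p5 * X.bs 1 * (X.lP .p4)⁻¹) * X.cc⁻¹
      rw [hs, toU_s, map_one, mul_one]

/-- **The column** through the third brick: `K` is a group with a homomorphism `ι` of `B` and
elements `y`, `t` such that `ι δ' = [t, y]`, mapped to the pinwheel group by `F`. -/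
noncomputable def column {K : Type*} [Group K] (ι : B →* K) (y t : K)
    (hδ : ι X.δ' = t * y * t⁻¹ * y⁻¹) (F : K →* X.Pin) (hF : ∀ b, F (ι b) = X.of1 (X.q b))
    (hy : F y = X.of0 (X.g xS)) (ht : F t = X.t) :
    ColK X.D qsd Bool Bool K where
  inc v ε t := srcR v ε = t
  uniq h h' := h.symm.trans h'
  p {v ε _} _ := qR v ε
  qsd_ne {v _ _} _ _ := by cases v <;> decide
  p_inj {v ε v' ε' _} _ _ h := by
    rcases v with _ | _ <;> rcases ε with _ | _ <;> rcases v' with _ | _ <;>
      rcases ε' with _ | _ <;> first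
      | exact ⟨rfl, rfl⟩
      | exact absurd h (by decide)
  W := WR B
  u := eR (X.i1.comp X.q) (X.i2.comp (MonoidHom.inr F2 F2))
  m _ := 1
  e := eR ι (fr2 y (ι X.δ'))
  k := kR t
  F := X.toU.comp F
  q := fun t => if t then X.cc else X.aa
  cross {v ε t t'} i i' w l h := by
    obtain ⟨u, hu⟩ := X.mem_LQ h
    subst i i'
    rcases v with _ | _ <;> rcases ε with _ | _
    · -- first wall, from the third brick
      have h1 : s1 gd u = ((1 : F2), (w : F2)) := X.i2_injective hu
      have h2 : pw gd (u : F2 × Zm).2 = (w : F2) := congrArg Prod.snd h1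
      refine ⟨pw X.δ' (u : F2 × Zm).2, ?_⟩
      change fr2 y (ι X.δ') w * 1 = 1 * ι _
      rw [mul_one, one_mul, ← h2, fr2_pw_gd]
    · -- first wall, from the second brick
      have h1 : X.Q5 u = X.q w := X.i1_injective hu
      rw [Q5_apply] at h1
      have h2 : X.p (u : F2 × Zm).1 * X.q (pw X.δ' (u : F2 × Zm).2) = X.p 1 * X.q w := by
        rw [map_one, one_mul]; exact h1
      obtain ⟨-, h3⟩ := X.ind1_eq h2
      refine ⟨pw gd (u : F2 × Zm).2, ?_⟩
      change ι w * 1⁻¹ = 1⁻¹ * fr2 y (ι X.δ') _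
      rw [inv_one, mul_one, one_mul, fr2_pw_gd, h3]
    · -- second wall
      have h1 : s1 dy u = ((1 : F2), (w : F2)) := X.i2_injective hu
      have h2 : pw dy (u : F2 × Zm).2 = (w : F2) := congrArg Prod.snd h1
      refine ⟨pw gx (u : F2 × Zm).2, ?_⟩
      change fr2 y (ι X.δ') w * t = t * fr2 y (ι X.δ') _
      rw [← h2, fr2_pw_dy hδ]
    · have h1 : s1 gx u = ((1 : F2), (w : F2)) := X.i2_injective hu
      have h2 : pw gx (u : F2 × Zm).2 = (w : F2) := congrArg Prod.snd h1
      refine ⟨pw dy (u : F2 × Zm).2, ?_⟩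
      change fr2 y (ι X.δ') w * t⁻¹ = t⁻¹ * fr2 y (ι X.δ') _
      rw [← h2, mul_inv_eq_iff_eq_mul, mul_assoc, fr2_pw_dy hδ, inv_mul_cancel_left]
  F_e t w := by
    rcases t with _ | _
    · change X.toU (F (ι w)) = X.aa * X.bs (X.i1 (X.q w)) * X.aa⁻¹
      rw [hF, toU_of1]
    · change X.toU (F (fr2 y (ι X.δ') w)) = X.cc * X.bs (X.i2 (1, w)) * X.cc⁻¹
      have h : (X.toU.comp F).comp (fr2 y (ι X.δ')) = (MulAut.conj X.cc).toMonoidHom.comp
          (X.bs.comp (X.i2.comp (MonoidHom.inr F2 F2))) := by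
        refine fr2_ext ?_ ?_
        · change X.toU (F (fr2 y (ι X.δ') gx)) = X.cc * X.bs (X.i2 (1, gx)) * X.cc⁻¹
          rw [fr2_gx, hy, ← X.toU_κ, κS_true]
        · change X.toU (F (fr2 y (ι X.δ') gd)) = X.cc * X.bs (X.i2 (1, gd)) * X.cc⁻¹
          rw [fr2_gd, hF, toU_B, ← X.toU_κ, κS_false]
      exact DFunLike.congr_fun h w
  F_k {v t t'} i i' := by
    subst i i'
    rcases v with _ | _
    · change X.toU (F 1) = X.cc * (X.lQ .q6 * X.bs 1 * (X.lQ .q5)⁻¹) * X.aa⁻¹
      have h : X.aa = X.cc * X.lQ .q6 * (X.lQ .q5)⁻¹ := by rw [← X.aa_eq]; group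
      rw [map_one, map_one, map_one, h]
      group
    · change X.toU (F t) = X.cc * (X.lQ .q4 * X.bs 1 * (X.lQ .q3)⁻¹) * X.cc⁻¹
      rw [ht, toU_t', map_one, mul_one]

theorem closure_le {K : Type*} [Group K] {A : Type} [Group A] {ι : A →* K} {x s : K} {δ : A}
    (hgen : Subgroup.closure (Set.range ι ∪ {x, s}) = ⊤) :
    Subgroup.closure ({a | ∃ t w, a = eR ι (fr2 x (ι δ)) t w} ∪ {a | ∃ v, a = kR s v}) = ⊤ := by
  rw [eq_top_iff, ← hgen, Subgroup.closure_le]
  rintro a (⟨w, rfl⟩ | rfl | rfl)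
  · exact Subgroup.subset_closure (Or.inl ⟨false, w, rfl⟩)
  · exact Subgroup.subset_closure (Or.inl ⟨true, gx, (fr2_gx _ _).symm⟩)
  · exact Subgroup.subset_closure (Or.inr ⟨true, rfl⟩)

/-- **A row and a column of a pinwheel are independent.**  Let `K` be a group generated by the image
of `A` and two elements `x`, `s` with `δ = [s, x]`, and `K'` a group generated by the image of `B`
and two elements `y`, `t` with `δ' = [t, y]`.  If `F : K →* X.Pin` and `F' : K' →* X.Pin` are the
canonical homomorphisms, then `(u, v) ↦ F u * F' v` is injective on `K × K'`. -/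
theorem row_column_inv {K K' : Type*} [Group K] [Group K'] {ι : A →* K} {x s : K}
    (hδ : ι X.δ = s * x * s⁻¹ * x⁻¹) (hgen : Subgroup.closure (Set.range ι ∪ {x, s}) = ⊤)
    {ι' : B →* K'} {y t : K'} (hδ' : ι' X.δ' = t * y * t⁻¹ * y⁻¹)
    (hgen' : Subgroup.closure (Set.range ι' ∪ {y, t}) = ⊤) {F : K →* X.Pin} {F' : K' →* X.Pin}
    (hF : ∀ a, F (ι a) = X.of0 (X.f a)) (hx : F x = X.of1 (X.p gx)) (hs : F s = X.of1 (X.p gd))
    (hF' : ∀ b, F' (ι' b) = X.of1 (X.q b)) (hy : F' y = X.of0 (X.g xS)) (ht : F' t = X.t) :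
    Pool.GSG.INV F F' := by
  let R := X.row ι x s hδ F hF hx hs
  let C := X.column ι' y t hδ' F' hF' hy ht
  have hR : ∀ a, R.Walk true true a := by
    refine RowK.walk_of_gen (X := R) ?_ ?_ (closure_le hgen)
    · rintro (_ | _)
      · have h : R.Walk true false (R.e true 1 * Pool.TPR.lt (R.k false) true * R.e false 1) :=
          .cons (δ := true) _ rfl rfl (.nil _)
        have h2 : R.e true 1 * Pool.TPR.lt (R.k false) true * R.e false 1 = 1 := by
          rw [map_one, map_one, mul_one, one_mul]; rfl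
        rwa [h2] at h
      · have h := RowK.Walk.nil (X := R) (t := true) 1
        rwa [map_one] at h
    · rintro (_ | _)
      · exact ⟨true, false, rfl, rfl⟩
      · exact ⟨true, true, rfl, rfl⟩
  have hC : ∀ b, C.Walk true true b := by
    refine ColK.walk_of_gen (X := C) ?_ ?_ (closure_le hgen')
    · rintro (_ | _)
      · have h : C.Walk true false (C.e true 1 * Pool.TPR.lt (C.k false) true * C.e false 1) :=
          .cons (δ := true) _ rfl rfl (.nil _)
        have h2 : C.e true 1 * Pool.TPR.lt (C.k false) true * C.e false 1 = 1 := by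
          rw [map_one, map_one, mul_one, one_mul]; rfl
        rwa [h2] at h
      · have h := ColK.Walk.nil (X := C) (t := true) 1
        rwa [map_one] at h
    · rintro (_ | _)
      · exact ⟨true, false, rfl, rfl⟩
      · exact ⟨true, true, rfl, rfl⟩
  refine inv_row_col X.vcond X.hcond R C hR hC 1 ?_ ?_ X.toU F F' (fun _ => rfl) (fun _ => rfl)
  · rw [map_one, mul_one]
    rfl
  · intro w w' h
    rw [one_mul, inv_one, mul_one] at h
    change X.i2 (w, 1) * X.i2 (1, w') = 1 at h
    rw [← map_mul, map_eq_one_iff _ X.i2_injective, Prod.mk_mul_mk, mul_one, one_mul,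
      Prod.mk_eq_one] at h
    exact h

end Wheel

end Pool.GSP
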