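import Pool.Agent.Lib.GSP.WheelHoms
import Pool.Agent.Lib.GSP.Corner

/-!
# The triangle data of a pinwheel
-/

namespace Pool.GSP

open Function Monoid

/-- edges between bricks and vertical walls -/
inductive PE | p1 | p2 | p3 | p4 | p5
  deriving DecidableEq

/-- edges between bricks and horizontal walls -/
inductive QE | q1 | q2 | q3 | q4 | q5 | q6
  deriving DecidableEq

/-- junctions -/
inductive RE | r1 | r2 | r3 | r4 | r5 | r6
  deriving DecidableEq

/-- corners -/
inductive TE | t1 | t2 | t3 | t4 | t5 | t6 | t7 | t8 | t9 | t10 | t11 | t12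
  deriving DecidableEq

/-- the vertical edge of a corner -/
def pT : TE → PE
  | .t1 => .p1 | .t2 => .p1 | .t3 => .p3 | .t4 => .p3 | .t5 => .p4 | .t6 => .p4
  | .t7 => .p5 | .t8 => .p5 | .t9 => .p4 | .t10 => .p5 | .t11 => .p2 | .t12 => .p3

/-- the horizontal edge of a corner -/
def qT : TE → QE
  | .t1 => .q1 | .t2 => .q2 | .t3 => .q3 | .t4 => .q4 | .t5 => .q3 | .t6 => .q4
  | .t7 => .q3 | .t8 => .q4 | .t9 => .q6 | .t10 => .q6 | .t11 => .q5 | .t12 => .q6

/-- the junction of a corner -/
def rT : TE → RE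
  | .t1 => .r1 | .t2 => .r2 | .t3 => .r1 | .t4 => .r2 | .t5 => .r3 | .t6 => .r3
  | .t7 => .r4 | .t8 => .r4 | .t9 => .r5 | .t10 => .r5 | .t11 => .r6 | .t12 => .r6

/-- `true`: the vertical wall is through -/
def kT : RE → Bool
  | .r1 => false | .r2 => false | .r3 => true | .r4 => true | .r5 => false | .r6 => true

/-- the free generator `x` (or `y`) -/
abbrev gx : F2 := FreeGroup.of true

/-- the free generator `δ` (or `δ'`, `s`, `t`) -/
abbrev gd : F2 := FreeGroup.of false

/-- `(b, m) ↦ (α ^ m, b)` -/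
def s2 (α : F2) : F2 × Zm →* F2 × F2 :=
  ((pw α).comp (MonoidHom.snd F2 Zm)).prod (MonoidHom.fst F2 Zm)

theorem s2_apply (α : F2) (z : F2 × Zm) : s2 α z = (pw α z.2, z.1) := rfl

/-- `(a, n) ↦ (a, β ^ n)` -/
def s1 (β : F2) : F2 × Zm →* F2 × F2 := (MonoidHom.id F2).prodMap (pw β)

theorem s1_apply (β : F2) (z : F2 × Zm) : s1 β z = (z.1, pw β z.2) := rfl

/-- `(m, n) ↦ (β ^ n, m)` -/
def sw (β : F2) : Zm × Zm →* F2 × Zm :=
  ((pw β).comp (MonoidHom.snd Zm Zm)).prod (MonoidHom.fst Zm Zm)

theorem sw_apply (β : F2) (z : Zm × Zm) : sw β z = (pw β z.2, z.1) := rfl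

/-- `(m, n) ↦ (α ^ m, n)` -/
def st (α : F2) : Zm × Zm →* F2 × Zm := (pw α).prodMap (MonoidHom.id Zm)

theorem st_apply (α : F2) (z : Zm × Zm) : st α z = (pw α z.1, z.2) := rfl

theorem s2_injective {α : F2} (h : Injective (pw α)) : Injective (s2 α) := by
  intro a b hab
  rw [s2_apply, s2_apply, Prod.mk.injEq] at hab
  exact Prod.ext hab.2 (h hab.1)

theorem s1_injective {β : F2} (h : Injective (pw β)) : Injective (s1 β) := by
  intro a b hab
  rw [s1_apply, s1_apply, Prod.mk.injEq] at hab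
  exact Prod.ext hab.1 (h hab.2)

/-- the corners of the third brick -/
theorem inter_s {α β : F2} {u v : F2 × Zm} (h : s2 α u = s1 β v) :
    ∃ z : Zm × Zm, u = sw β z ∧ v = st α z := by
  rw [s2_apply, s1_apply, Prod.mk.injEq] at h
  exact ⟨(u.2, v.2), Prod.ext h.2 rfl, Prod.ext h.1.symm rfl⟩

theorem brick_s (α β : F2) (z : Zm × Zm) : s2 α (sw β z) = s1 β (st α z) := rfl

namespace Wheel

variable {A B G0 G1 : Type} [Group A] [Group B] [Group G0] [Group G1] (X : Wheel A B G0 G1)

/-- the ambient vertex group -/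
abbrev Gm : Type := G0 × G1 × (F2 × F2) × NN (pw X.μ) × (F2 × Zm) × (F2 × Zm) × NN (pw X.ν)

/-- first brick -/
def i0 : G0 →* X.Gm := MonoidHom.inl _ _
/-- second brick -/
def i1 : G1 →* X.Gm := (MonoidHom.inr _ _).comp (MonoidHom.inl _ _)
/-- third brick -/
def i2 : F2 × F2 →* X.Gm := (MonoidHom.inr _ _).comp ((MonoidHom.inr _ _).comp (MonoidHom.inl _ _))
/-- first vertical wall -/
def m1 : NN (pw X.μ) →* X.Gm := (MonoidHom.inr _ _).comp ((MonoidHom.inr _ _).comp
  ((MonoidHom.inr _ _).comp (MonoidHom.inl _ _)))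
/-- second vertical wall -/
def m2 : F2 × Zm →* X.Gm := (MonoidHom.inr _ _).comp ((MonoidHom.inr _ _).comp
  ((MonoidHom.inr _ _).comp ((MonoidHom.inr _ _).comp (MonoidHom.inl _ _))))
/-- first horizontal wall -/
def n1 : F2 × Zm →* X.Gm := (MonoidHom.inr _ _).comp ((MonoidHom.inr _ _).comp
  ((MonoidHom.inr _ _).comp ((MonoidHom.inr _ _).comp ((MonoidHom.inr _ _).comp
  (MonoidHom.inl _ _)))))
/-- second horizontal wall -/
def n2 : NN (pw X.ν) →* X.Gm := (MonoidHom.inr _ _).comp ((MonoidHom.inr _ _).comp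
  ((MonoidHom.inr _ _).comp ((MonoidHom.inr _ _).comp ((MonoidHom.inr _ _).comp
  (MonoidHom.inr _ _)))))

theorem i0_injective : Injective X.i0 := fun _ _ h => congrArg (fun z => z.1) h
theorem i1_injective : Injective X.i1 := fun _ _ h => congrArg (fun z => z.2.1) h
theorem i2_injective : Injective X.i2 := fun _ _ h => congrArg (fun z => z.2.2.1) h
theorem m1_injective : Injective X.m1 := fun _ _ h => congrArg (fun z => z.2.2.2.1) h
theorem m2_injective : Injective X.m2 := fun _ _ h => congrArg (fun z => z.2.2.2.2.1) h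
theorem n1_injective : Injective X.n1 := fun _ _ h => congrArg (fun z => z.2.2.2.2.2.1) h
theorem n2_injective : Injective X.n2 := fun _ _ h => congrArg (fun z => z.2.2.2.2.2.2) h

/-- the subgroup `<x, δ> × Z` of the first vertical wall -/
def fM : F2 × Zm →* NN (pw X.μ) := jF (pw X.μ) X.δ' X.fixB
/-- the subgroup `<x, δ> × Z` of the second horizontal wall -/
def fN : F2 × Zm →* NN (pw X.ν) := jF (pw X.ν) X.δ X.fixA
/-- the subgroup `<x, δ> × Z` of the second horizontal wall, the other side -/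
def fN' : F2 × Zm →* NN (pw X.ν) := X.Ψ.toMonoidHom.comp (jF (pw X.ν') X.δ X.fixA')
/-- the subgroup `A ⋊ Z` of the second horizontal wall, the other side -/
def aN' : EN (pw X.ν') →* NN (pw X.ν) := X.Ψ.toMonoidHom.comp (jA (pw X.ν'))
/-- the other side of the second vertical wall -/
def iT' : F2 × Zm →* F2 × Zm := X.Φ.toMonoidHom.comp iT

/-- the amalgamated structure of the first vertical wall -/
def amM : Am (Zm × Zm) (NN (pw X.μ)) (EE (pw X.μ)) := amN (pw X.μ) X.δ' X.fixB X.hδ'
/-- the amalgamated structure of the second horizontal wall -/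
def amA : Am (Zm × Zm) (NN (pw X.ν)) (EE (pw X.ν)) := amN (pw X.ν) X.δ X.fixA X.hδ
/-- the amalgamated structure of the second horizontal wall, the other side -/
def amA' : Am (Zm × Zm) (NN (pw X.ν')) (EE (pw X.ν')) := amN (pw X.ν') X.δ X.fixA' X.hδ

theorem fM_injective : Injective X.fM := X.amM.e_injective true
theorem jM_injective : Injective (jA (pw X.μ)) := X.amM.e_injective false
theorem fN_injective : Injective X.fN := X.amA.e_injective true
theorem jN_injective : Injective (jA (pw X.ν)) := X.amA.e_injective false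
theorem fN'_injective : Injective X.fN' := X.Ψ.injective.comp (X.amA'.e_injective true)
theorem aN'_injective : Injective X.aN' := X.Ψ.injective.comp (X.amA'.e_injective false)
theorem iT'_injective : Injective X.iT' := X.Φ.injective.comp hnT.inc_injective

theorem commM (z : Zm × Zm) : jA (pw X.μ) (κA (pw X.μ) X.δ' X.fixB z) = X.fM (κF z) :=
  X.amM.comm false z
theorem commN (z : Zm × Zm) : jA (pw X.ν) (κA (pw X.ν) X.δ X.fixA z) = X.fN (κF z) :=
  X.amA.comm false z
theorem commN' (z : Zm × Zm) : X.aN' (κA (pw X.ν') X.δ X.fixA' z) = X.fN' (κF z) :=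
  congrArg X.Ψ (X.amA'.comm false z)

/-- the vertical edge groups -/
def EP : PE → Type
  | .p1 => NN (pw X.μ)
  | .p2 => EN (pw X.μ)
  | .p3 => F2 × Zm
  | .p4 => F2 × Zm
  | .p5 => F2 × Zm

instance : ∀ e, Group (X.EP e)
  | .p1 => inferInstanceAs (Group (NN (pw X.μ)))
  | .p2 => inferInstanceAs (Group (EN (pw X.μ)))
  | .p3 => inferInstanceAs (Group (F2 × Zm))
  | .p4 => inferInstanceAs (Group (F2 × Zm))
  | .p5 => inferInstanceAs (Group (F2 × Zm))

/-- the horizontal edge groups -/
def EQ : QE → Type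
  | .q1 => EN (pw X.ν)
  | .q2 => EN (pw X.ν')
  | .q3 => F2 × Zm
  | .q4 => F2 × Zm
  | .q5 => F2 × Zm
  | .q6 => F2 × Zm

instance : ∀ e, Group (X.EQ e)
  | .q1 => inferInstanceAs (Group (EN (pw X.ν)))
  | .q2 => inferInstanceAs (Group (EN (pw X.ν')))
  | .q3 => inferInstanceAs (Group (F2 × Zm))
  | .q4 => inferInstanceAs (Group (F2 × Zm))
  | .q5 => inferInstanceAs (Group (F2 × Zm))
  | .q6 => inferInstanceAs (Group (F2 × Zm))

/-- vertical edge groups in the bricks -/
def bP : ∀ e, X.EP e →* X.Gm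
  | .p1 => X.i0.comp X.P1
  | .p2 => X.i1.comp X.P2
  | .p3 => X.i2.comp (s2 gd)
  | .p4 => X.i2.comp (s2 gx)
  | .p5 => X.i2.comp (s2 dy)

/-- vertical edge groups in the walls -/
def wP : ∀ e, X.EP e →* X.Gm
  | .p1 => X.m1
  | .p2 => X.m1.comp (jA (pw X.μ))
  | .p3 => X.m1.comp X.fM
  | .p4 => X.m2.comp iT
  | .p5 => X.m2.comp X.iT'

/-- horizontal edge groups in the bricks -/
def bQ : ∀ e, X.EQ e →* X.Gm
  | .q1 => X.i0.comp X.Q1
  | .q2 => X.i0.comp X.Q2
  | .q3 => X.i2.comp (s1 gx)
  | .q4 => X.i2.comp (s1 dy)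
  | .q5 => X.i1.comp X.Q5
  | .q6 => X.i2.comp (s1 gd)

/-- horizontal edge groups in the walls -/
def wQ : ∀ e, X.EQ e →* X.Gm
  | .q1 => X.n2.comp (jA (pw X.ν))
  | .q2 => X.n2.comp X.aN'
  | .q3 => X.n2.comp X.fN
  | .q4 => X.n2.comp X.fN'
  | .q5 => X.n1
  | .q6 => X.n1.comp iT

theorem bP_injective : ∀ e, Injective (X.bP e)
  | .p1 => X.i0_injective.comp X.P1_injective
  | .p2 => X.i1_injective.comp X.P2_injective
  | .p3 => X.i2_injective.comp (s2_injective (pw_of_injective false))
  | .p4 => X.i2_injective.comp (s2_injective (pw_of_injective true))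
  | .p5 => X.i2_injective.comp (s2_injective pw_dy_injective)

theorem wP_injective : ∀ e, Injective (X.wP e)
  | .p1 => X.m1_injective
  | .p2 => X.m1_injective.comp X.jM_injective
  | .p3 => X.m1_injective.comp X.fM_injective
  | .p4 => X.m2_injective.comp hnT.inc_injective
  | .p5 => X.m2_injective.comp X.iT'_injective

theorem bQ_injective : ∀ e, Injective (X.bQ e)
  | .q1 => X.i0_injective.comp X.Q1_injective
  | .q2 => X.i0_injective.comp X.Q2_injective
  | .q3 => X.i2_injective.comp (s1_injective (pw_of_injective true))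
  | .q4 => X.i2_injective.comp (s1_injective pw_dy_injective)
  | .q5 => X.i1_injective.comp X.Q5_injective
  | .q6 => X.i2_injective.comp (s1_injective (pw_of_injective false))

theorem wQ_injective : ∀ e, Injective (X.wQ e)
  | .q1 => X.n2_injective.comp X.jN_injective
  | .q2 => X.n2_injective.comp X.aN'_injective
  | .q3 => X.n2_injective.comp X.fN_injective
  | .q4 => X.n2_injective.comp X.fN'_injective
  | .q5 => X.n1_injective
  | .q6 => X.n1_injective.comp hnT.inc_injective

/-- corner groups in the vertical edge groups -/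
def eP : ∀ t, Zm × Zm →* X.EP (pT t)
  | .t1 => X.fM.comp (sw gx)
  | .t2 => X.fM.comp (sw dy)
  | .t3 => sw gx
  | .t4 => sw dy
  | .t5 => sw gx
  | .t6 => sw dy
  | .t7 => sw gx
  | .t8 => sw dy
  | .t9 => sw gd
  | .t10 => sw gd
  | .t11 => (κA (pw X.μ) X.δ' X.fixB).comp
      ((MonoidHom.snd Zm Zm).prod (MonoidHom.fst Zm Zm))
  | .t12 => sw gd

/-- corner groups in the horizontal edge groups -/
def eQ : ∀ t, Zm × Zm →* X.EQ (qT t)
  | .t1 => κA (pw X.ν) X.δ X.fixA
  | .t2 => κA (pw X.ν') X.δ X.fixA'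
  | .t3 => st gd
  | .t4 => st gd
  | .t5 => st gx
  | .t6 => st gx
  | .t7 => st dy
  | .t8 => st dy
  | .t9 => st gx
  | .t10 => st dy
  | .t11 => iT.comp (st gd)
  | .t12 => st gd

/-- junction groups in the horizontal walls -/
def rN : RE → Zm × Zm →* X.Gm
  | .r1 => X.n2.comp ((jA (pw X.ν)).comp (κA (pw X.ν) X.δ X.fixA))
  | .r2 => X.n2.comp (X.aN'.comp (κA (pw X.ν') X.δ X.fixA'))
  | .r3 => X.n2.comp (X.fN.comp (st gx))
  | .r4 => X.n2.comp (X.fN.comp (st dy))
  | .r5 => X.n1.comp (iT.comp (st gx))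
  | .r6 => X.n1.comp (iT.comp (st gd))

/-- junction groups in the vertical walls -/
def rM : RE → Zm × Zm →* X.Gm
  | .r1 => X.m1.comp (X.fM.comp (sw gx))
  | .r2 => X.m1.comp (X.fM.comp (sw dy))
  | .r3 => X.m2.comp (iT.comp (sw gx))
  | .r4 => X.m2.comp (X.iT'.comp (sw gx))
  | .r5 => X.m2.comp (iT.comp (sw gd))
  | .r6 => X.m1.comp (X.fM.comp (sw gd))

theorem st_injective {α : F2} (h : Injective (pw α)) : Injective (st α) := by
  intro a b hab
  rw [st_apply, st_apply, Prod.mk.injEq] at hab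
  exact Prod.ext (h hab.1) hab.2

theorem sw_injective {α : F2} (h : Injective (pw α)) : Injective (sw α) := by
  intro a b hab
  rw [sw_apply, sw_apply, Prod.mk.injEq] at hab
  exact Prod.ext hab.2 (h hab.1)

theorem rN_injective : ∀ e, Injective (X.rN e)
  | .r1 => X.n2_injective.comp (X.jN_injective.comp (κA_injective _ _ _ X.hδ))
  | .r2 => X.n2_injective.comp (X.aN'_injective.comp (κA_injective _ _ _ X.hδ))
  | .r3 => X.n2_injective.comp (X.fN_injective.comp (st_injective (pw_of_injective true)))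
  | .r4 => X.n2_injective.comp (X.fN_injective.comp (st_injective pw_dy_injective))
  | .r5 => X.n1_injective.comp (hnT.inc_injective.comp (st_injective (pw_of_injective true)))
  | .r6 => X.n1_injective.comp (hnT.inc_injective.comp (st_injective (pw_of_injective false)))

theorem rM_injective : ∀ e, Injective (X.rM e)
  | .r1 => X.m1_injective.comp (X.fM_injective.comp (sw_injective (pw_of_injective true)))
  | .r2 => X.m1_injective.comp (X.fM_injective.comp (sw_injective pw_dy_injective))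
  | .r3 => X.m2_injective.comp (hnT.inc_injective.comp (sw_injective (pw_of_injective true)))
  | .r4 => X.m2_injective.comp (X.iT'_injective.comp (sw_injective (pw_of_injective true)))
  | .r5 => X.m2_injective.comp (hnT.inc_injective.comp (sw_injective (pw_of_injective false)))
  | .r6 => X.m1_injective.comp (X.fM_injective.comp (sw_injective (pw_of_injective false)))

/-- the element at the horizontal wall of a corner -/
def xT : TE → X.Gm
  | .t8 => X.n2 X.w
  | .t10 => X.n1 tT
  | _ => 1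

/-- the element at the vertical wall of a corner -/
def bT : TE → X.Gm
  | .t6 => X.m2 tT⁻¹
  | .t8 => X.m2 (X.Φ tT)⁻¹
  | _ => 1

end Wheel

end Pool.GSP
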